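import Pool.Agent.W_2414c2_h42.SDef

/-!
# MP_2414c2_co : maximum cliques anticomplete to a claw are isolated (Lemma 1)
-/

set_option autoImplicit false

open Finset
open scoped Classical

namespace HM42

open HM89

variable {V : Type*} {G : SimpleGraph V} {k m : ℕ} {W : Finset V}

/-- the step relation among outer vertices -/
def rr (G : SimpleGraph V) (W I : Finset V) (a b : V) : Prop := G.Adj a b ∧ Out G W I b

theorem rr_out {I : Finset V} {l z : V} (hl : Out G W I l)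
    (h : Relation.ReflTransGen (rr G W I) l z) : Out G W I z := by
  rcases Relation.ReflTransGen.cases_tail h with h3 | ⟨c, -, h3⟩
  · rw [h3]
    exact hl
  · exact h3.2

/-- Facts about a vertex `c` with exactly one non-neighbour `χ` in `I`. -/
theorem one_two (hm : Mx G W m) {v : V} {I : Finset V} (hc : TC G W m v I) {c χ f f' : V}
    (hcW : c ∈ W) (h1 : One G I c χ) (hf : Out G W I f) (hf' : Out G W I f')
    (hcf : G.Adj c f) (hcf' : G.Adj c f') (hne : f ≠ f') : G.Adj f f' := by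
  have hcard : (I.erase χ).card + 1 = m := by
    have h2 := Finset.card_erase_add_one h1.1
    rw [h2, hc.card]
  exact two_adj hm ((Finset.erase_subset _ _).trans hc.IW)
    (fun x hx y hy => hc.st x (Finset.mem_of_mem_erase hx) y (Finset.mem_of_mem_erase hy))
    hcard hcW (fun a ha => h1.2.2 a (Finset.mem_of_mem_erase ha) (Finset.ne_of_mem_erase ha))
    (hf.mono (Finset.erase_subset _ _)) (hf'.mono (Finset.erase_subset _ _)) hcf hcf' hne

theorem one_three (hs : NoS G) (h3 : 3 ≤ m) {v : V} {I : Finset V} (hc : TC G W m v I)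
    {c χ f p p' : V} (h1 : One G I c χ) (hf : Out G W I f) (hp : Out G W I p)
    (hp' : Out G W I p') (hcf : G.Adj c f) (hcp : ¬ G.Adj c p) (hcp' : ¬ G.Adj c p')
    (hfp : G.Adj f p) (hpp : G.Adj p p') : G.Adj f p' := by
  by_contra hn
  obtain ⟨a, ha, b, hb, hab, haχ, hbχ⟩ := exists_two (I := I) (by rw [hc.card]; exact h3) χ
  exact hs c a b f p p' (h1.2.2 a ha haχ) (h1.2.2 b hb hbχ) hcf hfp hpp hab (hc.st a ha b hb)
    (ns (hf.2.2 a ha)) (ns (hp.2.2 a ha)) (ns (hp'.2.2 a ha)) (ns (hf.2.2 b hb))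
    (ns (hp.2.2 b hb)) (ns (hp'.2.2 b hb)) hcp hcp' hn

theorem one_four (hs : NoS G) (hm : Mx G W m) (h3 : 3 ≤ m) {v : V} {I : Finset V}
    (hc : TC G W m v I)
    {c χ f p p' : V} (h1 : One G I c χ) (hf : Out G W I f) (hp : Out G W I p)
    (hp' : Out G W I p') (hcf : G.Adj c f) (hcp : ¬ G.Adj c p) (hcp' : ¬ G.Adj c p')
    (hfp : G.Adj f p) (hfp' : G.Adj f p') (hne : p ≠ p') : G.Adj p p' := by
  by_contra hn
  by_cases hvc : G.Adj v c
  · exact hs f p p' c v χ hfp hfp' hcf.symm hvc.symm (hc.adj χ h1.1) hne hn (ns hcp)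
      (ns (hc.out hm hp)) (hp.2.2 χ h1.1) (ns hcp') (ns (hc.out hm hp')) (hp'.2.2 χ h1.1)
      (ns (hc.out hm hf)) (hf.2.2 χ h1.1) h1.2.1
  · obtain ⟨a, ha, -, -, -, haχ, -⟩ := exists_two (I := I) (by rw [hc.card]; exact h3) χ
    exact hs f p p' c a v hfp hfp' hcf.symm (h1.2.2 a ha haχ) (hc.adj a ha).symm hne hn (ns hcp)
      (hp.2.2 a ha) (ns (hc.out hm hp)) (ns hcp') (hp'.2.2 a ha) (ns (hc.out hm hp'))
      (hf.2.2 a ha) (ns (hc.out hm hf)) (ns hvc)

/-- Lemma 1. -/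
theorem MC.isol (h : MC G k W) (hs : NoS G) (h3 : 3 ≤ m) (hm : Mx G W m) {v : V} {I : Finset V}
    (hc : TC G W m v I) {L : Finset V} (hLW : L ⊆ W) (hL : G.IsClique (L : Set V))
    (hLk : L.card = k) (hLo : ∀ l ∈ L, Out G W I l) {y l : V} (hy : Out G W I y) (hyL : y ∉ L)
    (hl : l ∈ L) (hyl : G.Adj y l) : False := by
  have hk := h.two
  let Y : Finset V := W.filter (fun z => ∃ l ∈ L, Relation.ReflTransGen (rr G W I) l z)
  have hY : ∀ z, z ∈ Y ↔ z ∈ W ∧ ∃ l ∈ L, Relation.ReflTransGen (rr G W I) l z :=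
    fun z => Finset.mem_filter
  have hYo : ∀ z ∈ Y, Out G W I z := by
    intro z hz
    obtain ⟨-, l', hl', hz'⟩ := (hY z).1 hz
    exact rr_out (hLo l' hl') hz'
  have hLY : ∀ z ∈ L, z ∈ Y := fun z hz => (hY z).2 ⟨hLW hz, z, hz, Relation.ReflTransGen.refl⟩
  have hst : ∀ z ∈ Y, ∀ z', Out G W I z' → G.Adj z z' → z' ∈ Y := by
    intro z hz z' hz' hzz
    obtain ⟨-, l', hl', hz2⟩ := (hY z).1 hz
    exact (hY z').2 ⟨hz'.1, l', hl', hz2.tail ⟨hzz, hz'⟩⟩
  have hyY : y ∈ Y := hst l (hLY l hl) y hy hyl.symm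
  -- neighbours of `Y`
  have hnb : ∀ c ∈ W, c ∉ Y → (∃ z ∈ Y, G.Adj c z) → ∃ i ∈ I, G.Adj c i := by
    rintro c hcW hcY ⟨z, hz, hcz⟩
    by_contra hcon
    push Not at hcon
    by_cases hcI : c ∈ I
    · exact (hYo z hz).2.2 c hcI hcz.symm
    · exact hcY (hst z hz c ⟨hcW, hcI, hcon⟩ hcz.symm)
  have hone : ∀ c ∈ W, c ∉ Y → (∃ z ∈ Y, G.Adj c z) → ∃ χ, One G I c χ := by
    intro c hcW hcY hcz
    have hi := hnb c hcW hcY hcz
    obtain ⟨z, hz, hcz⟩ := hcz
    by_contra hcon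
    have hprop : ∀ p p', Out G W I p → Out G W I p' → G.Adj p p' → G.Adj c p → G.Adj c p' := by
      intro p p' hp hp' hpp hcp
      by_contra hn
      exact hcon (hc.one hs hm hcW hp hcp hp' hpp hn hi)
    obtain ⟨-, l0, hl0, hz2⟩ := (hY z).1 hz
    have hback : ∀ z, Relation.ReflTransGen (rr G W I) l0 z → G.Adj c z → G.Adj c l0 := by
      intro z hz
      induction hz with
      | refl => exact fun h => h
      | tail hb hbc ih =>
        intro hcz
        exact ih (hprop _ _ hbc.2 (rr_out (hLo l0 hl0) hb) hbc.1.symm hcz)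
    have hcl0 := hback z hz2 hcz
    obtain ⟨l1, hl1, hcl1⟩ := h.nfull hcW hLW hL hLk
    have hne : l0 ≠ l1 := by
      rintro rfl
      exact hcl1 hcl0
    exact hcl1 (hprop l0 l1 (hLo l0 hl0) (hLo l1 hl1) (hL hl0 hl1 hne) hcl0)
  -- (5)
  have h5 : ∀ c ∈ W, c ∉ Y → (∃ z ∈ Y, G.Adj c z) → ∃ f ∈ L, G.Adj c f := by
    intro c hcW hcY hcz
    obtain ⟨χ, h1⟩ := hone c hcW hcY hcz
    obtain ⟨z, hz, hcz⟩ := hcz
    by_contra hcon
    push Not at hcon
    obtain ⟨-, l0, hl0, hz2⟩ := (hY z).1 hz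
    have hS : ∀ z, Relation.ReflTransGen (rr G W I) l0 z →
        (∃ f ∈ Y, G.Adj c f ∧ G.Adj f l0) ∨
        (¬ G.Adj c z ∧ ∀ f ∈ Y, G.Adj c f → G.Adj f z → G.Adj f l0) := by
      intro z hz
      induction hz with
      | refl => exact Or.inr ⟨hcon l0 hl0, fun f _ _ hf => hf⟩
      | @tail b z' hb hbc ih =>
        rcases ih with ih | ⟨hcb, ih⟩
        · exact Or.inl ih
        · have hbo : Out G W I b := rr_out (hLo l0 hl0) hb
          have hz'Y : z' ∈ Y := (hY z').2 ⟨hbc.2.1, l0, hl0, hb.tail hbc⟩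
          by_cases hcz' : G.Adj c z'
          · exact Or.inl ⟨z', hz'Y, hcz', ih z' hz'Y hcz' hbc.1.symm⟩
          · refine Or.inr ⟨hcz', fun f hf hcf hfz => ?_⟩
            exact ih f hf hcf (one_three hs h3 hc h1 (hYo f hf) hbc.2 hbo hcf hcz' hcb hfz
              hbc.1.symm)
    rcases hS z hz2 with ⟨f, hf, hcf, hfl⟩ | ⟨hcz', -⟩
    · obtain ⟨l1, hl1, hfl1⟩ := h.nfull (hYo f hf).1 hLW hL hLk
      have hne : l0 ≠ l1 := by
        rintro rfl
        exact hfl1 hfl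
      exact hfl1 (one_three hs h3 hc h1 (hYo f hf) (hLo l0 hl0) (hLo l1 hl1) hcf (hcon l0 hl0)
        (hcon l1 hl1) hfl (hL hl0 hl1 hne))
    · exact hcz' hcz
  -- (6)
  have h6 : ∀ c ∈ W, c ∉ Y → (∃ z ∈ Y, G.Adj c z) → ∀ y ∈ Y, y ∉ L → ∀ l ∈ L, ¬ G.Adj c l →
      ¬ G.Adj y l := by
    intro c hcW hcY hcz y hyY hyL l hl hcl hyl
    obtain ⟨χ, h1⟩ := hone c hcW hcY hcz
    obtain ⟨f0, hf0, hcf0⟩ := h5 c hcW hcY hcz
    obtain ⟨l1, hl1, hyl1⟩ := h.nfull (hYo y hyY).1 hLW hL hLk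
    have hne1 : l ≠ l1 := by
      rintro rfl
      exact hyl1 hyl
    by_cases hcy : G.Adj c y
    · by_cases hcl1 : G.Adj c l1
      · have hne : y ≠ l1 := by
          rintro rfl
          exact hyL hl1
        exact hyl1 (one_two hm hc hcW h1 (hYo y hyY) (hLo l1 hl1) hcy hcl1 hne)
      · exact hyl1 (one_three hs h3 hc h1 (hYo y hyY) (hLo l hl) (hLo l1 hl1) hcy hcl hcl1 hyl
          (hL hl hl1 hne1))
    · have hall : ∀ f ∈ L, G.Adj c f → G.Adj f y := by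
        intro f hf hcf
        have hne : f ≠ l := by
          rintro rfl
          exact hcl hcf
        exact one_three hs h3 hc h1 (hLo f hf) (hLo l hl) (hYo y hyY) hcf hcl hcy (hL hf hl hne)
          hyl.symm
      by_cases hcl1 : G.Adj c l1
      · exact hyl1 (hall l1 hl1 hcl1).symm
      · have hne : f0 ≠ l1 := by
          rintro rfl
          exact hcl1 hcf0
        have hne2 : y ≠ l1 := by
          rintro rfl
          exact hyL hl1
        exact hyl1 (one_four hs hm h3 hc h1 (hLo f0 hf0) (hYo y hyY) (hLo l1 hl1) hcf0 hcy hcl1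
          (hall f0 hf0 hcf0) (hL hf0 hl1 hne) hne2)
  -- every neighbour of `Y` is adjacent to `l`
  have h7 : ∀ c ∈ W, c ∉ Y → (∃ z ∈ Y, G.Adj c z) → G.Adj c l := by
    intro c hcW hcY hcz
    by_contra hcl
    exact h6 c hcW hcY hcz y hyY hyL l hl hcl hyl
  -- a neighbour of `Y` exists
  obtain ⟨c, hcW, hcY, hcz⟩ : ∃ c ∈ W, c ∉ Y ∧ ∃ z ∈ Y, G.Adj c z := by
    by_contra hcon
    push Not at hcon
    refine h.conn (A := Y) (Finset.filter_subset _ _) ⟨y, hyY⟩ ⟨v, Finset.mem_sdiff.2 ⟨hc.vW, ?_⟩⟩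
      ?_
    · intro hvY
      obtain ⟨a, ha, -⟩ := exists_two (I := I) (by rw [hc.card]; exact h3) v
      exact (hYo v hvY).2.2 a ha (hc.adj a ha)
    · intro a ha b hb hab
      exact hcon b (Finset.mem_sdiff.1 hb).1 (Finset.mem_sdiff.1 hb).2 a ha hab.symm
  obtain ⟨p, hp, hcp⟩ := h.nfull hcW hLW hL hLk
  have hpl : p ≠ l := by
    rintro rfl
    exact hcp (h7 c hcW hcY hcz)
  refine MC.dom h (hLW hp) (hLW hl) (hL hp hl hpl) ?_
  intro z hz hpz
  by_cases hzY : z ∈ Y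
  · by_cases hzL : z ∈ L
    · by_cases hzl : z = l
      · exact Or.inl hzl
      · exact Or.inr (hL hl hzL (Ne.symm hzl))
    · exact absurd hpz.symm (h6 c hcW hcY hcz z hzY hzL p hp hcp)
  · exact Or.inr (h7 z hz hzY ⟨p, hLY p hp, hpz.symm⟩).symm

end HM42
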