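import Pool.Agent.W_2414c2_h42.Alpha

/-!
# MP_2414c2_co : maximum cliques which touch a claw (Lemma 2)
-/

set_option autoImplicit false

open Finset
open scoped Classical

namespace HM42

open HM89

variable {V : Type*} {G : SimpleGraph V} {k m : ℕ} {W : Finset V}

/-- the traces on the neighbourhood of `u` of two adjacent vertices far from `u` are nested -/
theorem chain5 (h5 : NoC5 G) {u i j z z' : V} (hui : G.Adj u i) (huj : G.Adj u j)
    (huz : ¬ G.Adj u z) (huz' : ¬ G.Adj u z') (hij : ¬ G.Adj i j) (hiz : G.Adj i z)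
    (hzz : G.Adj z z') (hzj : G.Adj z' j) (hiz' : ¬ G.Adj i z') (hzj' : ¬ G.Adj z j) : False :=
  h5 u i z z' j hui hiz hzz hzj huj.symm huz huz' hiz' hij hzj'

/-- Lemma 2. -/
theorem MC.touch (h : MC G k W) (h5 : NoC5 G) (hs : NoS G) (hm : Mx G W m)
    {v : V} {I : Finset V}
    (hc : TC G W m v I) {K : Finset V} (hKW : K ⊆ W) (hK : G.IsClique (K : Set V))
    (hKk : K.card = k) (hvK : ∀ z ∈ K, ¬ G.Adj v z) (ht : ∃ z ∈ K, ∃ i ∈ I, G.Adj z i) :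
    ∃ x ∈ I, (∀ z ∈ K, ¬ G.Adj z x) ∧
      (∀ z ∈ K, (∀ i ∈ I, i ≠ x → G.Adj z i) ∨ (∀ i ∈ I, ¬ G.Adj z i)) ∧
      (∃ z ∈ K, ∀ i ∈ I, i ≠ x → G.Adj z i) ∧ (∃ z ∈ K, ∀ i ∈ I, ¬ G.Adj z i) := by
  have hKI : ∀ z ∈ K, z ∉ I := fun z hz hzI => hvK z hz (hc.adj z hzI)
  have hch : ∀ z ∈ K, ∀ z' ∈ K, ∀ i ∈ I, ∀ j ∈ I, G.Adj z i → ¬ G.Adj z' i → G.Adj z' j →
      G.Adj z j := by
    intro z hz z' hz' i hi j hj hzi hz'i hz'j
    by_contra hzj
    have hne : z ≠ z' := by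
      rintro rfl
      exact hz'i hzi
    exact chain5 h5 (hc.adj i hi) (hc.adj j hj) (hvK z hz) (hvK z' hz') (hc.st i hi j hj) hzi.symm
      (hK hz hz' hne) hz'j (ns hz'i) hzj
  obtain ⟨z1, hz1, i1, hi1, hzi1⟩ := ht
  -- the smallest trace is empty
  obtain ⟨z0, hz0, hmin⟩ := Finset.exists_min_image K
    (fun z => (I.filter (fun i => G.Adj z i)).card) ⟨z1, hz1⟩
  have hz0e : ∀ i ∈ I, ¬ G.Adj z0 i := by
    intro i hi hzi
    obtain ⟨z', hz', hz'i⟩ := h.nfull (hc.IW hi) hKW hK hKk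
    have h2 : I.filter (fun j => G.Adj z' j) ⊂ I.filter (fun j => G.Adj z0 j) := by
      refine ⟨fun j hj => ?_, fun hsub => ?_⟩
      · rw [Finset.mem_filter] at hj ⊢
        exact ⟨hj.1, hch z0 hz0 z' hz' i hi j hj.1 hzi (ns hz'i) hj.2⟩
      · have h3 := hsub (Finset.mem_filter.2 ⟨hi, hzi⟩)
        exact hz'i (Finset.mem_filter.1 h3).2.symm
    have h4 := Finset.card_lt_card h2
    have h5' := hmin z' hz'
    omega
  have hz0o : Out G W I z0 := ⟨hKW hz0, hKI z0 hz0, hz0e⟩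
  -- a vertex with a neighbour in `I` misses exactly one
  have hmiss : ∀ z ∈ K, (∃ i ∈ I, G.Adj z i) → ∃ χ, One G I z χ := by
    rintro z hz ⟨i, hi, hzi⟩
    have hne : z ≠ z0 := by
      rintro rfl
      exact hz0e i hi hzi
    have hzz0 : G.Adj z z0 := hK hz hz0 hne
    obtain ⟨χ, hχ, hzχ⟩ := hc.ncomp hm hz0o (hKW hz) hzz0
    refine ⟨χ, hχ, hzχ, fun j hj hjχ => ?_⟩
    by_contra hzj
    exact hc.miss hs hm (hvK z hz) hi hzi hz0o hzz0 hj hχ hjχ hzj hzχ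
  obtain ⟨x, hx, hz1x, hz1o⟩ := hmiss z1 hz1 ⟨i1, hi1, hzi1⟩
  have hall : ∀ z ∈ K, (∃ i ∈ I, G.Adj z i) → ¬ G.Adj z x := by
    intro z hz hzi hzx
    obtain ⟨χ, hχ, hzχ, hzo⟩ := hmiss z hz hzi
    have hχx : χ ≠ x := by
      rintro rfl
      exact hzχ hzx
    exact hzχ (hch z hz z1 hz1 x hx χ hχ hzx hz1x (hz1o χ hχ hχx))
  refine ⟨x, hx, ?_, ?_, ⟨z1, hz1, hz1o⟩, ⟨z0, hz0, hz0e⟩⟩
  · intro z hz hzx
    exact hall z hz ⟨x, hx, hzx⟩ hzx
  · intro z hz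
    by_cases hzi : ∃ i ∈ I, G.Adj z i
    · left
      obtain ⟨χ, hχ, hzχ, hzo⟩ := hmiss z hz hzi
      have hχx : χ = x := by
        by_contra hne
        exact hall z hz hzi (hzo x hx (Ne.symm hne))
      rw [hχx] at hzo
      exact hzo
    · right
      push Not at hzi
      exact hzi

/-- (i) of Step 1. -/
theorem mid_v (h5 : NoC5 G) (hs : NoS G) {u v x r a b z : V} (hub : G.Adj u b)
    (hva : G.Adj v a) (hvb : G.Adj v b) (huv : ¬ G.Adj u v) (hvx : G.Adj v x) (hur : G.Adj u r)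
    (hux : ¬ G.Adj u x) (hvr : ¬ G.Adj v r) (hxr : ¬ G.Adj x r) (hab : ¬ G.Adj a b)
    (hxa : ¬ G.Adj x a) (hxb : ¬ G.Adj x b) (hra : ¬ G.Adj r a) (hrb : ¬ G.Adj r b)
    (hzu : G.Adj z u) (hza : G.Adj z a) (hzb : ¬ G.Adj z b) : G.Adj z v := by
  by_contra hzv
  by_cases hzx : G.Adj z x
  · exact h5 u z x v b hzu.symm hzx hvx.symm hvb hub.symm hux huv hzv hzb hxb
  · by_cases hzr : G.Adj z r
    · have hne : b ≠ x := by
        rintro rfl
        exact hux hub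
      exact hs v b x a z r hvb hvx hva hza.symm hzr hne (ns hxb) (ns hab) (ns hzb) (ns hrb) hxa
        (ns hzx) hxr (ns hzv) hvr (ns hra)
    · have hne : z ≠ r := by
        rintro rfl
        exact hra hza
      exact hs u z r b v x hzu.symm hur hub hvb.symm hvx hne hzr hzb hzv hzx hrb (ns hvr)
        (ns hxr) huv hux (ns hxb)

/-- Step 1, the property `(*)`: `m ~ u` with a neighbour and a non-neighbour in `A = I - x` has a
non-neighbour in `K` among the vertices anticomplete to `I`. -/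
theorem MC.star2 (h : MC G k W) (h5 : NoC5 G) (hs : NoS G) {v : V} {I : Finset V}
    (hc : TC G W m v I) {K : Finset V} (hKW : K ⊆ W) (hK : G.IsClique (K : Set V))
    (hKk : K.card = k) (hvK : ∀ z ∈ K, ¬ G.Adj v z) {x : V} (hx : x ∈ I)
    (hKx : ∀ z ∈ K, ¬ G.Adj z x)
    (hdi : ∀ z ∈ K, (∀ i ∈ I, i ≠ x → G.Adj z i) ∨ (∀ i ∈ I, ¬ G.Adj z i))
    {u r : V} (hu : u ∈ K) (huI : ∀ i ∈ I, i ≠ x → G.Adj u i) (hr : r ∈ K)
    (hrI : ∀ i ∈ I, ¬ G.Adj r i) {z a b : V} (hz : z ∈ W) (ha : a ∈ I) (hax : a ≠ x)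
    (hb : b ∈ I) (hbx : b ≠ x) (hzu : G.Adj z u) (hza : G.Adj z a) (hzb : ¬ G.Adj z b) :
    ∃ r' ∈ K, (∀ i ∈ I, ¬ G.Adj r' i) ∧ ¬ G.Adj z r' := by
  have hab : ¬ G.Adj a b := hc.st a ha b hb
  have hur : G.Adj u r := by
    have hne : u ≠ r := by
      rintro rfl
      exact hrI a ha (huI a ha hax)
    exact hK hu hr hne
  have hzv : G.Adj z v := mid_v h5 hs (huI b hb hbx) (hc.adj a ha) (hc.adj b hb)
    (ns (hvK u hu)) (hc.adj x hx) hur (hKx u hu) (hvK r hr) (ns (hrI x hx)) hab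
    (hc.st x hx a ha) (hc.st x hx b hb) (hrI a ha) (hrI b hb) hzu hza hzb
  obtain ⟨r', hr', hzr'⟩ := h.nfull hz hKW hK hKk
  refine ⟨r', hr', ?_, hzr'⟩
  rcases hdi r' hr' with h1 | h1
  · exfalso
    have hr'r : G.Adj r' r := by
      have hne : r' ≠ r := by
        rintro rfl
        exact hrI a ha (h1 a ha hax)
      exact hK hr' hr hne
    exact hzr' (mid_v h5 hs (hc.adj b hb) (h1 a ha hax) (h1 b hb hbx) (hvK r' hr')
      hr'r (hc.adj x hx) (hvK r hr) (hKx r' hr') (hrI x hx) hab (hrI a ha) (hrI b hb)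
      (hc.st x hx a ha) (hc.st x hx b hb) hzv hza hzb)
  · exact h1

end HM42
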