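import Pool.Agent.W_2414c2_h42.PartB
import Pool.Agent.W_2414c2_h89.Main

/-!
# MP_2414c2_co : a minimal counterexample without induced `S(1,1,3)` has no claw
-/

set_option autoImplicit false

open Finset
open scoped Classical

namespace HM42

open HM89

variable {V : Type*} {G : SimpleGraph V} {k m : ℕ} {W : Finset V}

/-- Step 1: a maximum clique anticomplete to the centre does not touch the claw. -/
theorem MC.notouch (h : MC G k W) (h5 : NoC5 G) (hs : NoS G) (h3 : 3 ≤ m) (hm : Mx G W m)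
    {v : V} {I : Finset V} (hc : TC G W m v I) {K : Finset V} (hKW : K ⊆ W)
    (hK : G.IsClique (K : Set V)) (hKk : K.card = k) (hvK : ∀ z ∈ K, ¬ G.Adj v z) {z i : V}
    (hz : z ∈ K) (hi : i ∈ I) : ¬ G.Adj z i := by
  intro hzi
  obtain ⟨x, hx, hKx, hdi, ⟨u, hu, huI⟩, ⟨r, hr, hrI⟩⟩ :=
    MC.touch h h5 hs hm hc hKW hK hKk hvK ⟨z, hz, i, hi, hzi⟩
  have hKI : ∀ z ∈ K, z ∉ I := fun z hz hzI => hvK z hz (hc.adj z hzI)
  obtain ⟨a0, ha0, -, -, -, ha0x, -⟩ := exists_two (I := I) (by rw [hc.card]; exact h3) x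
  have hur : ∀ r' ∈ K, (∀ i ∈ I, ¬ G.Adj r' i) → G.Adj u r' := by
    intro r' hr' hrI'
    have hne : u ≠ r' := by
      rintro rfl
      exact hrI' a0 ha0 (huI a0 ha0 ha0x)
    exact hK hu hr' hne
  have hO : ∀ r' ∈ K, (∀ i ∈ I, ¬ G.Adj r' i) → Out G W (I.erase x) r' := by
    intro r' hr' hrI'
    exact ⟨hKW hr', fun h1 => hKI r' hr' (Finset.mem_of_mem_erase h1),
      fun i hi => hrI' i (Finset.mem_of_mem_erase hi)⟩
  have hps : PS G k m W (I.erase x) u r := by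
    refine ⟨h, h5, hs, h3, hm, hKW hu, (Finset.erase_subset _ _).trans hc.IW, ?_, ?_, ?_,
      hO r hr hrI, hur r hr hrI, ?_⟩
    · intro a ha b hb
      exact hc.st a (Finset.mem_of_mem_erase ha) b (Finset.mem_of_mem_erase hb)
    · rw [Finset.card_erase_add_one hx, hc.card]
    · intro a ha
      exact huI a (Finset.mem_of_mem_erase ha) (Finset.ne_of_mem_erase ha)
    · rintro z hz hzu ⟨a, ha, hza⟩ ⟨b, hb, hzb⟩
      obtain ⟨r', hr', hrI', hzr'⟩ := MC.star2 h h5 hs hc hKW hK hKk hvK hx hKx hdi hu huI hr hrI hz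
        (Finset.mem_of_mem_erase ha) (Finset.ne_of_mem_erase ha) (Finset.mem_of_mem_erase hb)
        (Finset.ne_of_mem_erase hb) hzu hza hzb
      exact ⟨r', hO r' hr' hrI', hur r' hr' hrI', hzr'⟩
  exact hps.false

/-- two non-adjacent neighbours of `v` have the same trace -/
theorem MC.pairv (h : MC G k W) (h5 : NoC5 G) (hs : NoS G) (h3 : 3 ≤ m) (hm : Mx G W m)
    {v : V} {I : Finset V} (hc : TC G W m v I) {K : Finset V} (hKW : K ⊆ W)
    (hK : G.IsClique (K : Set V)) (hKk : K.card = k) (hKo : ∀ z ∈ K, Out G W I z) {a b z z' : V}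
    (haW : a ∈ W) (hbW : b ∈ W) (hva : G.Adj v a) (hvb : G.Adj v b) (hab : ¬ G.Adj a b)
    (hz : z ∈ K) (hz' : z' ∈ K) (haz : G.Adj a z) (haz' : ¬ G.Adj a z') (hbz' : G.Adj b z') :
    False := by
  have hne : z ≠ z' := by
    rintro rfl
    exact haz' haz
  have hnbr : ∀ c ∈ W, G.Adj v c → ∀ t ∈ K, G.Adj c t → c ∉ I ∧ ∃ i ∈ I, G.Adj c i := by
    intro c hcW hvc t ht hct
    have hcI : c ∉ I := fun hcI => (hKo t ht).2.2 c hcI hct.symm
    refine ⟨hcI, ?_⟩
    by_contra hcon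
    push Not at hcon
    exact hc.out hm ⟨hcW, hcI, hcon⟩ hvc
  obtain ⟨haI, hai⟩ := hnbr a haW hva z hz haz
  obtain ⟨hbI, hbi⟩ := hnbr b hbW hvb z' hz' hbz'
  obtain ⟨χ, h1⟩ := hc.one hs hm haW (hKo z hz) haz (hKo z' hz') (hK hz hz' hne) haz' hai
  obtain ⟨b', hb', hbb'⟩ := h.nfull hbW hKW hK hKk
  have hneb : z' ≠ b' := by
    rintro rfl
    exact hbb' hbz'
  obtain ⟨χ', h1'⟩ := hc.one hs hm hbW (hKo z' hz') hbz' (hKo b' hb') (hK hz' hb' hneb) hbb' hbi
  have hvK : ∀ t ∈ K, ¬ G.Adj v t := fun t ht => hc.out hm (hKo t ht)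
  have hnest : ∀ p ∈ K, G.Adj a p → G.Adj b p := by
    intro p hp hap
    by_contra hn
    have hnp : p ≠ z' := by
      rintro rfl
      exact haz' hap
    exact h5 a p z' b v hap (hK hp hz' hnp) hbz'.symm hvb.symm hva haz' hab (ns hn)
      (ns (hvK p hp)) (ns (hvK z' hz'))
  have hab' : ¬ G.Adj a b' := fun hh => hbb' (hnest b' hb' hh)
  by_cases hχ : χ = χ'
  · rw [← hχ] at h1'
    have hneχ : χ ≠ a := by
      rintro rfl
      exact haI h1.1
    exact hs v χ a b z' b' (hc.adj χ h1.1) hva hvb hbz' (hK hz' hb' hneb) hneχ (ns h1.2.1)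
      (ns h1'.2.1) (ns ((hKo z' hz').2.2 χ h1.1)) (ns ((hKo b' hb').2.2 χ h1.1)) hab haz' hab'
      (hvK z' hz') (hvK b' hb') hbb'
  · obtain ⟨j, hj, hjχ, hjχ'⟩ := exists_third (Q := I) (by rw [hc.card]; exact h3) χ χ'
    have hneχ : χ ≠ z' := by
      rintro rfl
      exact (hKo χ hz').2.1 h1.1
    exact hs b χ z' j a χ' (h1'.2.2 χ h1.1 hχ) hbz' (h1'.2.2 j hj hjχ') (h1.2.2 j hj hjχ).symm
      (h1.2.2 χ' h1'.1 (Ne.symm hχ)) hneχ (ns ((hKo z' hz').2.2 χ h1.1)) (hc.st χ h1.1 j hj)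
      (ns h1.2.1) (hc.st χ h1.1 χ' h1'.1) ((hKo z' hz').2.2 j hj) (ns haz')
      ((hKo z' hz').2.2 χ' h1'.1) (ns hab) h1'.2.1 (hc.st j hj χ' h1'.1)

/-- Step 2: there is no claw of maximum size. -/
theorem MC.noTC (h : MC G k W) (h5 : NoC5 G) (hs : NoS G) (h3 : 3 ≤ m) (hm : Mx G W m)
    {v : V} {I : Finset V} (hc : TC G W m v I) : False := by
  have hk2 := h.two
  let FK : Finset V → Prop := fun K => K ⊆ W ∧ G.IsClique (K : Set V) ∧ K.card = k ∧
    ∀ z ∈ K, ¬ G.Adj v z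
  have hFo : ∀ K, FK K → ∀ z ∈ K, Out G W I z := by
    rintro K ⟨hKW, hK, hKk, hvK⟩ z hz
    exact ⟨hKW hz, fun hzI => hvK z hz (hc.adj z hzI), fun i hi =>
      MC.notouch h h5 hs h3 hm hc hKW hK hKk hvK hz hi⟩
  -- the choice of a vertex
  have hch : ∀ K, FK K → ∃ z ∈ K, ∀ M ⊆ W, G.IsClique (M : Set V) →
      (∀ x ∈ M, G.Adj v x ∧ G.Adj x z) → M.card + 1 < k := by
    intro K hFK
    obtain ⟨hKW, hK, hKk, hvK⟩ := hFK
    by_contra hcon
    push Not at hcon
    obtain ⟨z, hz, z', hz', hzz⟩ := Finset.one_lt_card.1 (show 1 < K.card by omega)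
    obtain ⟨M, hMW, hM, hMv, hMk⟩ := hcon z hz
    obtain ⟨M', hMW', hM', hMv', hMk'⟩ := hcon z' hz'
    obtain ⟨a, ha, haz'⟩ : ∃ a ∈ M, ¬ G.Adj a z' := by
      by_contra hcon2
      push Not at hcon2
      have h1 : ∀ p ∈ M, G.Adj z p := fun p hp => (hMv p hp).2.symm
      have h2 := h.ext_card (hKW hz') (Finset.insert_subset (hKW hz) hMW) (cl_insert hM h1) (by
        intro p hp
        rcases Finset.mem_insert.1 hp with rfl | hp
        · exact hK hz' hz (Ne.symm hzz)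
        · exact (hcon2 p hp).symm)
      rw [cl_card_insert h1] at h2
      omega
    obtain ⟨b, hb, hab⟩ : ∃ b ∈ M', ¬ G.Adj a b := by
      by_contra hcon2
      push Not at hcon2
      have h2 := h.ext_card hc.vW (Finset.insert_subset (hMW ha) hMW') (cl_insert hM' hcon2) (by
        intro p hp
        rcases Finset.mem_insert.1 hp with rfl | hp
        · exact (hMv p ha).1
        · exact (hMv' p hp).1)
      rw [cl_card_insert hcon2] at h2
      omega
    exact MC.pairv h h5 hs h3 hm hc hKW hK hKk (hFo K ⟨hKW, hK, hKk, hvK⟩) (hMW ha) (hMW' hb)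
      (hMv a ha).1 (hMv' b hb).1 hab hz hz' (hMv a ha).2 haz' (hMv' b hb).2
  have hsel : ∀ K : Finset V, ∃ o : Option V, FK K → ∃ z, o = some z ∧ z ∈ K ∧
      ∀ M ⊆ W, G.IsClique (M : Set V) → (∀ x ∈ M, G.Adj v x ∧ G.Adj x z) → M.card + 1 < k := by
    intro K
    by_cases hFK : FK K
    · obtain ⟨z, hz, hz2⟩ := hch K hFK
      exact ⟨some z, fun _ => ⟨z, rfl, hz, hz2⟩⟩
    · exact ⟨none, fun h1 => absurd h1 hFK⟩
  choose sel hsel using hsel
  let S : Finset V := W.filter (fun z => ∃ K, FK K ∧ sel K = some z)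
  let N : Finset V := W.filter (fun z => G.Adj v z)
  have hS : ∀ z, z ∈ S ↔ z ∈ W ∧ ∃ K, FK K ∧ sel K = some z := fun z => Finset.mem_filter
  have hN : ∀ z, z ∈ N ↔ z ∈ W ∧ G.Adj v z := fun z => Finset.mem_filter
  have hSK : ∀ z ∈ S, ∃ K, FK K ∧ sel K = some z ∧ z ∈ K := by
    intro z hz
    obtain ⟨-, K, hFK, hK⟩ := (hS z).1 hz
    obtain ⟨z1, h1, h2, -⟩ := hsel K hFK
    rw [hK] at h1
    have : z = z1 := Option.some.inj h1
    rw [this]
    exact ⟨K, hFK, hK.trans h1, h2⟩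
  -- different cliques are anticomplete
  have hsep : ∀ K K', FK K → FK K' → ∀ z ∈ K, ∀ z' ∈ K', G.Adj z z' → K = K' := by
    intro K K' hFK hFK' z hz z' hz' hzz
    have hin : ∀ K K', FK K → FK K' → ∀ z ∈ K, ∀ z' ∈ K', G.Adj z z' → z ∈ K' := by
      intro K K' hFK hFK' z hz z' hz' hzz
      by_contra hn
      exact MC.isol h hs h3 hm hc hFK'.1 hFK'.2.1 hFK'.2.2.1 (hFo K' hFK') (hFo K hFK z hz) hn hz'
        hzz
    have hzK' : z ∈ K' := hin K K' hFK hFK' z hz z' hz' hzz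
    have hsub : K ⊆ K' := by
      intro w hw
      by_cases hwz : w = z
      · rw [hwz]
        exact hzK'
      · exact hin K K' hFK hFK' w hw z hzK' (hFK.2.1 hw hz hwz)
    exact Finset.eq_of_subset_of_card_le hsub (by rw [hFK.2.2.1, hFK'.2.2.1])
  apply h.nodiv
  refine ⟨N ∪ S, Finset.union_subset (Finset.filter_subset _ _) (Finset.filter_subset _ _), ?_, ?_⟩
  · intro s hs' hcl
    have hsW : s ⊆ W := hs'.trans
      (Finset.union_subset (Finset.filter_subset _ _) (Finset.filter_subset _ _))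
    by_contra hlt
    have hsk : s.card = k := le_antisymm (h.le s hsW hcl) (not_lt.1 hlt)
    obtain ⟨p, hp, hvp⟩ : ∃ p ∈ s, ¬ G.Adj v p := by
      by_contra hcon
      push Not at hcon
      have h1 := h.ext_card hc.vW hsW hcl hcon
      omega
    have hpS : p ∈ S := by
      rcases Finset.mem_union.1 (hs' hp) with h1 | h1
      · exact absurd ((hN p).1 h1).2 hvp
      · exact h1
    obtain ⟨K, hFK, hselK, hpK⟩ := hSK p hpS
    obtain ⟨z1, h1, -, hz1⟩ := hsel K hFK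
    rw [hselK] at h1
    have hz1p : p = z1 := Option.some.inj h1
    rw [← hz1p] at hz1
    have h2 := hz1 (s.erase p) ((Finset.erase_subset _ _).trans hsW) (hcl.subset (by simp)) (by
      intro x hx
      obtain ⟨hxp, hxs⟩ := Finset.mem_erase.1 hx
      have hxp2 : G.Adj x p := hcl hxs hp hxp
      refine ⟨?_, hxp2⟩
      rcases Finset.mem_union.1 (hs' hxs) with h3 | h3
      · exact ((hN x).1 h3).2
      · exfalso
        obtain ⟨K', hFK', hselK', hxK'⟩ := hSK x h3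
        have h4 := hsep K' K hFK' hFK x hxK' p hpK hxp2
        rw [h4, hselK] at hselK'
        exact hxp (Option.some.inj hselK').symm)
    rw [Finset.card_erase_of_mem hp, hsk] at h2
    omega
  · intro s hs' hcl
    have hsW : s ⊆ W := hs'.trans Finset.sdiff_subset
    by_contra hlt
    have hsk : s.card = k := le_antisymm (h.le s hsW hcl) (not_lt.1 hlt)
    have hvs : ∀ z ∈ s, ¬ G.Adj v z := by
      intro z hz hvz
      exact (Finset.mem_sdiff.1 (hs' hz)).2 (Finset.mem_union_left _ ((hN z).2 ⟨hsW hz, hvz⟩))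
    have hFs : FK s := ⟨hsW, hcl, hsk, hvs⟩
    obtain ⟨z, hz1, hz2, -⟩ := hsel s hFs
    exact (Finset.mem_sdiff.1 (hs' hz2)).2 (Finset.mem_union_right _
      ((hS z).2 ⟨hsW hz2, s, hFs, hz1⟩))

/-- a minimal counterexample without induced `S(1,1,3)` has no claw -/
theorem MC.noclaw_of_S (h : MC G k W) (h5 : NoC5 G) (hs : NoS G) {v x y z : V}
    (hv : v ∈ W) (hx : x ∈ W) (hy : y ∈ W) (hz : z ∈ W) (hc : Claw G v x y z) : False := by
  let P : Finset (V × Finset V) := (W ×ˢ W.powerset).filter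
    (fun a => (∀ x ∈ a.2, G.Adj a.1 x) ∧ Stb G a.2)
  have hP : ∀ a, a ∈ P ↔ (a.1 ∈ W ∧ a.2 ⊆ W) ∧ (∀ x ∈ a.2, G.Adj a.1 x) ∧ Stb G a.2 := by
    intro a
    rw [Finset.mem_filter, Finset.mem_product, Finset.mem_powerset]
  have h0 : (v, ({x, y, z} : Finset V)) ∈ P := by
    rw [hP]
    refine ⟨⟨hv, ?_⟩, ?_, ?_⟩
    · intro a ha
      simp only [Finset.mem_insert, Finset.mem_singleton] at ha
      rcases ha with rfl | rfl | rfl
      · exact hx
      · exact hy
      · exact hz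
    · intro a ha
      simp only [Finset.mem_insert, Finset.mem_singleton] at ha
      rcases ha with rfl | rfl | rfl
      · exact hc.vx
      · exact hc.vy
      · exact hc.vz
    · intro a ha b hb hab
      simp only [Finset.mem_insert, Finset.mem_singleton] at ha hb
      rcases ha with rfl | rfl | rfl <;> rcases hb with rfl | rfl | rfl
      · exact G.irrefl hab
      · exact hc.xy hab
      · exact hc.xz hab
      · exact hc.xy hab.symm
      · exact G.irrefl hab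
      · exact hc.yz hab
      · exact hc.xz hab.symm
      · exact hc.yz hab.symm
      · exact G.irrefl hab
  obtain ⟨⟨v0, Q0⟩, h1, hmax⟩ := Finset.exists_max_image P (fun a => a.2.card) ⟨_, h0⟩
  rw [hP] at h1
  have h3 : 3 ≤ Q0.card := by
    have h4 := hmax _ h0
    have h5 : ({x, y, z} : Finset V).card = 3 := Finset.card_eq_three.2
      ⟨x, y, z, hc.nxy, hc.nxz, hc.nyz, rfl⟩
    have h6 : ({x, y, z} : Finset V).card ≤ Q0.card := h4
    omega
  have hm : Mx G W Q0.card := by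
    intro v hv Q hQ hvQ hst
    exact hmax (v, Q) ((hP _).2 ⟨⟨hv, hQ⟩, hvQ, hst⟩)
  exact MC.noTC h h5 hs h3 hm (v := v0) (I := Q0) ⟨h1.1.1, h1.1.2, h1.2.1, h1.2.2, rfl⟩

theorem good_of_S (hG : NoOH G) (hs : NoS G) (W : Finset V) : Gd G W := by
  by_contra hcon
  obtain ⟨k, W, h⟩ := exists_mc ⟨W, hcon⟩
  have h5 := noC5_of_noOH hG
  refine h.false_of_noclaw hG ?_
  intro v hv x hx y hy z hz hc
  exact MC.noclaw_of_S h h5 hs hv hx hy hz hc

end HM42
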