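import Pool.Agent.W_2414c2_h42.Unc

/-!
# MP_2414c2_co : the main partition (Lemma 3), preparations
-/

set_option autoImplicit false

open Finset
open scoped Classical

namespace HM42

open HM89

variable {V : Type*} {G : SimpleGraph V} {k m : ℕ} {W A : Finset V} {u r : V}

/-- The situation of Lemma 3. -/
structure PS (G : SimpleGraph V) (k m : ℕ) (W A : Finset V) (u r : V) : Prop where
  mc : MC G k W
  h5 : NoC5 G
  hs : NoS G
  h3 : 3 ≤ m
  hm : Mx G W m
  uW : u ∈ W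
  AW : A ⊆ W
  st : Stb G A
  card : A.card + 1 = m
  uA : ∀ a ∈ A, G.Adj u a
  rO : Out G W A r
  ur : G.Adj u r
  star : ∀ z ∈ W, G.Adj z u → (∃ a ∈ A, G.Adj z a) → (∃ b ∈ A, ¬ G.Adj z b) →
    ∃ r', Out G W A r' ∧ G.Adj u r' ∧ ¬ G.Adj z r'

/-- anticomplete to `A` and to `u` -/
def An (G : SimpleGraph V) (W A : Finset V) (u p : V) : Prop := Out G W A p ∧ ¬ G.Adj u p

/-- moreover not adjacent to a neighbour of `u` outside which is anticomplete to `A` -/
def Far (G : SimpleGraph V) (W A : Finset V) (u p : V) : Prop :=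
  An G W A u p ∧ ∀ f, Out G W A f → G.Adj u f → ¬ G.Adj f p

/-- adjacency among far vertices -/
def rf (G : SimpleGraph V) (W A : Finset V) (u a b : V) : Prop := G.Adj a b ∧ Far G W A u b

/-- the component of `p` -/
noncomputable def Yc (G : SimpleGraph V) (W A : Finset V) (u p : V) : Finset V :=
  W.filter (fun z => Relation.ReflTransGen (rf G W A u) p z)

theorem mem_Yc {p z : V} : z ∈ Yc G W A u p ↔ z ∈ W ∧ Relation.ReflTransGen (rf G W A u) p z :=
  Finset.mem_filter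

theorem Far.mem {p : V} (h : Far G W A u p) : p ∈ W := h.1.1.1

theorem self_Yc {p : V} (h : Far G W A u p) : p ∈ Yc G W A u p :=
  mem_Yc.2 ⟨h.1.1.1, Relation.ReflTransGen.refl⟩

theorem rf_far {p z : V} (hp : Far G W A u p) (h : Relation.ReflTransGen (rf G W A u) p z) :
    Far G W A u z := by
  rcases Relation.ReflTransGen.cases_tail h with h3 | ⟨c, -, h3⟩
  · rw [h3]
    exact hp
  · exact h3.2

theorem Yc_far {p z : V} (hp : Far G W A u p) (h : z ∈ Yc G W A u p) : Far G W A u z :=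
  rf_far hp (mem_Yc.1 h).2

theorem rf_symm {p z : V} (hp : Far G W A u p) (h : Relation.ReflTransGen (rf G W A u) p z) :
    Relation.ReflTransGen (rf G W A u) z p := by
  induction h with
  | refl => exact Relation.ReflTransGen.refl
  | tail hb hbc ih =>
    exact Relation.ReflTransGen.head ⟨hbc.1.symm, rf_far hp hb⟩ ih

theorem Yc_eq {p z : V} (hp : Far G W A u p) (h : z ∈ Yc G W A u p) :
    Yc G W A u z = Yc G W A u p := by
  have h1 := (mem_Yc.1 h).2
  ext w
  rw [mem_Yc, mem_Yc]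
  constructor
  · rintro ⟨hw, h2⟩
    exact ⟨hw, h1.trans h2⟩
  · rintro ⟨hw, h2⟩
    exact ⟨hw, (rf_symm hp h1).trans h2⟩

/-- (b) -/
theorem PS.b (h : PS G k m W A u r) {f p p' : V} (hf : Out G W A f) (huf : G.Adj u f)
    (hp : An G W A u p) (hp' : An G W A u p') (hfp : G.Adj f p) (hpp : G.Adj p p') :
    G.Adj f p' := by
  by_contra hn
  have hcard : 2 ≤ A.card := by
    have h1 := h.card
    have h2 := h.h3
    omega
  obtain ⟨a, ha, b, hb, hab⟩ := Finset.one_lt_card.1 hcard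
  exact h.hs u a b f p p' (h.uA a ha) (h.uA b hb) huf hfp hpp hab (h.st a ha b hb)
    (ns (hf.2.2 a ha)) (ns (hp.1.2.2 a ha)) (ns (hp'.1.2.2 a ha)) (ns (hf.2.2 b hb))
    (ns (hp.1.2.2 b hb)) (ns (hp'.1.2.2 b hb)) hp.2 hp'.2 hn

/-- (c) -/
theorem PS.c (h : PS G k m W A u r) {z p f : V} (hz : NU G A u z) (hp : An G W A u p)
    (hf : Out G W A f) (huf : G.Adj u f) (hzp : G.Adj z p) (hfp : G.Adj f p) : G.Adj z f := by
  by_contra hn
  obtain ⟨huz, a, ha, hza⟩ := hz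
  exact h.h5 z p f u a hzp hfp.symm huf.symm (h.uA a ha) hza.symm hn (ns huz) (ns hp.2)
    (hp.1.2.2 a ha) (hf.2.2 a ha)

/-- being far is preserved -/
theorem PS.far_step (h : PS G k m W A u r) {p p' : V} (hp : Far G W A u p)
    (hp' : An G W A u p') (hpp : G.Adj p p') : Far G W A u p' :=
  ⟨hp', fun f hf huf hfp => hp.2 f hf huf (h.b hf huf hp' hp.1 hfp hpp.symm)⟩

/-- (d) -/
theorem PS.d (h : PS G k m W A u r) {c y y' : V} (hc : c ∈ W) (hcA : ∀ a ∈ A, G.Adj c a)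
    (hy : Far G W A u y) (hcy : G.Adj c y) (hy' : Out G W A y') (hcy' : G.Adj c y') :
    y' ∈ Yc G W A u y := by
  by_cases hne : y = y'
  · rw [← hne]
    exact self_Yc hy
  · have h1 : G.Adj y y' := two_adj h.hm h.AW h.st h.card hc hcA hy.1.1 hy' hcy hcy' hne
    have h2 : ¬ G.Adj u y' := fun h3 => hy.2 y' hy' h3 h1.symm
    have h3 : Far G W A u y' := h.far_step hy ⟨hy', h2⟩ h1
    exact mem_Yc.2 ⟨hy'.1, Relation.ReflTransGen.single ⟨h1, h3⟩⟩

/-- (e), first part -/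
theorem PS.e1 (h : PS G k m W A u r) {z y y' : V} (hz : z ∈ W) (hzu : G.Adj z u)
    (ha : ∃ a ∈ A, G.Adj z a) (hb : ∃ b ∈ A, ¬ G.Adj z b) (hy : Far G W A u y)
    (hzy : G.Adj z y) (hy' : y' ∈ Yc G W A u y) : G.Adj z y' := by
  obtain ⟨r', hr', hur', hzr'⟩ := h.star z hz hzu ha hb
  obtain ⟨b, hb, hzb⟩ := hb
  have key : ∀ p, Relation.ReflTransGen (rf G W A u) y p → G.Adj z p := by
    intro p hp
    induction hp with
    | refl => exact hzy
    | @tail p p' hp1 hpp ih =>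
      by_contra hn
      have hpf : Far G W A u p := rf_far hy hp1
      have hne : b ≠ r' := by
        rintro rfl
        exact hr'.2.1 hb
      exact h.hs u b r' z p p' (h.uA b hb) hur' hzu.symm ih hpp.1 hne (ns (hr'.2.2 b hb))
        (ns hzb) (ns (hpf.1.1.2.2 b hb)) (ns (hpp.2.1.1.2.2 b hb)) (ns hzr')
        (hpf.2 r' hr' hur') (hpp.2.2 r' hr' hur') hpf.1.2 hpp.2.1.2 hn
  exact key y' (mem_Yc.1 hy').2

/-- (e), second part -/
theorem PS.e2 (h : PS G k m W A u r) {z y y' w : V} (hz : z ∈ W) (hzu : G.Adj z u)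
    (ha : ∃ a ∈ A, G.Adj z a) (hb : ∃ b ∈ A, ¬ G.Adj z b) (hy : Far G W A u y)
    (hzy : G.Adj z y) (hy' : y' ∈ Yc G W A u y) (hw : NU G A u w) (hwy : G.Adj w y') :
    G.Adj z w := by
  have hzy' : G.Adj z y' := h.e1 hz hzu ha hb hy hzy hy'
  have hy'f : Far G W A u y' := Yc_far hy hy'
  obtain ⟨r', hr', hur', hzr'⟩ := h.star z hz hzu ha hb
  obtain ⟨b, hb, hzb⟩ := hb
  obtain ⟨huw, a', ha', hwa'⟩ := hw
  by_contra hzw
  by_cases hwA : ∀ a ∈ A, G.Adj w a
  · exact h.h5 u z y' w b hzu.symm hzy' hwy.symm (hwA b hb) (h.uA b hb).symm hy'f.1.2 huw hzw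
      hzb (hy'f.1.1.2.2 b hb)
  · push Not at hwA
    obtain ⟨b', hb', hwb'⟩ := hwA
    have hwr' : G.Adj w r' := by
      by_contra hn
      have hne : b' ≠ r' := by
        rintro rfl
        exact hr'.2.1 hb'
      exact h.hs u b' r' a' w y' (h.uA b' hb') hur' (h.uA a' ha') hwa'.symm hwy hne
        (ns (hr'.2.2 b' hb')) (h.st b' hb' a' ha') (ns hwb') (ns (hy'f.1.1.2.2 b' hb'))
        (hr'.2.2 a' ha') (ns hn) (hy'f.2 r' hr' hur') huw hy'f.1.2 (ns (hy'f.1.1.2.2 a' ha'))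
    exact h.h5 z u r' w y' hzu hur' hwr'.symm hwy hzy'.symm hzr' hzw huw hy'f.1.2
      (hy'f.2 r' hr' hur')

/-- relevant components -/
def Rel (G : SimpleGraph V) (k : ℕ) (W A : Finset V) (u p : V) : Prop :=
  ∃ s ⊆ W, G.IsClique (s : Set V) ∧ s.card = k ∧ (∃ q ∈ s, q ∈ Yc G W A u p) ∧
    ∀ w ∈ s, w ∈ Yc G W A u p ∨ NU G A u w

/-- components with a maximum clique -/
def Hk (G : SimpleGraph V) (k : ℕ) (W A : Finset V) (u p : V) : Prop :=
  ∃ L ⊆ Yc G W A u p, G.IsClique (L : Set V) ∧ L.card = k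

theorem Hk.rel (hk : 1 ≤ k) {p : V} (h : Hk G k W A u p) : Rel G k W A u p := by
  obtain ⟨L, hL, hcl, hc⟩ := h
  have hne : L.Nonempty := by
    rw [← Finset.card_pos]
    omega
  obtain ⟨q, hq⟩ := hne
  exact ⟨L, fun x hx => (mem_Yc.1 (hL hx)).1, hcl, hc, ⟨q, hq, hL hq⟩, fun w hw => Or.inl (hL hw)⟩

theorem rel_congr {p z : V} (hp : Far G W A u p) (hz : z ∈ Yc G W A u p) :
    Rel G k W A u z ↔ Rel G k W A u p := by
  unfold Rel
  rw [Yc_eq hp hz]

theorem hk_congr {p z : V} (hp : Far G W A u p) (hz : z ∈ Yc G W A u p) :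
    Hk G k W A u z ↔ Hk G k W A u p := by
  unfold Hk
  rw [Yc_eq hp hz]

/-- (f) -/
theorem PS.f (h : PS G k m W A u r) {z y : V} (hz : z ∈ W) (hzu : G.Adj z u)
    (ha : ∃ a ∈ A, G.Adj z a) (hb : ∃ b ∈ A, ¬ G.Adj z b) (hy : Far G W A u y)
    (hrel : Rel G k W A u y) : ¬ G.Adj z y := by
  intro hzy
  obtain ⟨s, hsW, hcl, hsk, ⟨q, hq, hqY⟩, hsU⟩ := hrel
  obtain ⟨w, hw, hzw⟩ := h.mc.nfull hz hsW hcl hsk
  by_cases hwY : w ∈ Yc G W A u y
  · exact hzw (h.e1 hz hzu ha hb hy hzy hwY)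
  · have hne : w ≠ q := by
      rintro rfl
      exact hwY hqY
    exact hzw (h.e2 hz hzu ha hb hy hzy hqY ((hsU w hw).resolve_left hwY) (hcl hw hq hne))

/-- the claw `(u; A + r)` -/
theorem PS.tc (h : PS G k m W A u r) : TC G W m u (insert r A) := by
  refine ⟨h.uW, Finset.insert_subset h.rO.1 h.AW, ?_, ?_, ?_⟩
  · intro x hx
    rcases Finset.mem_insert.1 hx with rfl | hx
    · exact h.ur
    · exact h.uA x hx
  · intro x hx y hy hxy
    rcases Finset.mem_insert.1 hx with hx1 | hx1 <;>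
      rcases Finset.mem_insert.1 hy with hy1 | hy1
    · rw [hx1, hy1] at hxy
      exact G.irrefl hxy
    · rw [hx1] at hxy
      exact h.rO.2.2 y hy1 hxy
    · rw [hy1] at hxy
      exact h.rO.2.2 x hx1 hxy.symm
    · exact h.st x hx1 y hy1 hxy
  · rw [Finset.card_insert_of_notMem h.rO.2.1, h.card]

theorem PS.far_out (h : PS G k m W A u r) {z : V} (hz : Far G W A u z) :
    Out G W (insert r A) z := by
  refine ⟨hz.1.1.1, ?_, ?_⟩
  · intro h1
    rcases Finset.mem_insert.1 h1 with h1 | h1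
    · rw [h1] at hz
      exact hz.1.2 h.ur
    · exact hz.1.1.2.1 h1
  · intro x hx hzx
    rcases Finset.mem_insert.1 hx with rfl | hx
    · exact hz.2 x h.rO h.ur hzx.symm
    · exact hz.1.1.2.2 x hx hzx

/-- (g) -/
theorem PS.g (h : PS G k m W A u r) {p : V} (hp : Far G W A u p) (hk : Hk G k W A u p) :
    ∃ z ∈ Yc G W A u p, ∀ s ⊆ W, G.IsClique (s : Set V) →
      (∀ w ∈ s, w ∈ (Yc G W A u p).erase z ∨ NU G A u w) → s.card < k := by
  obtain ⟨L, hLY, hcl, hLk⟩ := hk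
  have h2 := h.mc.two
  have hLW : L ⊆ W := fun x hx => (mem_Yc.1 (hLY hx)).1
  have hLo : ∀ l ∈ L, Out G W (insert r A) l := fun l hl => h.far_out (Yc_far hp (hLY hl))
  have hne : L.Nonempty := by
    rw [← Finset.card_pos]
    omega
  obtain ⟨l0, hl0⟩ := hne
  have hYL : Yc G W A u p = L := by
    refine Finset.Subset.antisymm ?_ hLY
    rw [← Yc_eq hp (hLY hl0)]
    intro z hz
    have key : ∀ z, Relation.ReflTransGen (rf G W A u) l0 z → z ∈ L := by
      intro z hz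
      induction hz with
      | refl => exact hl0
      | @tail b z hb hbz ih =>
        by_contra hzL
        exact MC.isol h.mc h.hs h.h3 h.hm h.tc hLW hcl hLk hLo (h.far_out hbz.2) hzL ih
          hbz.1.symm
    exact key z (mem_Yc.1 hz).2
  have hAne : A.Nonempty := by
    rw [← Finset.card_pos]
    have h3 := h.card
    have h4 := h.h3
    omega
  rw [hYL]
  exact MC.unc h.mc h.h5 h.hs h.h3 h.hm h.tc (Finset.subset_insert _ _) hAne hLW hcl hLk hLo

/-- (h) -/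
theorem PS.h (h : PS G k m W A u r) {s : Finset V} (hsW : s ⊆ W) (hcl : G.IsClique (s : Set V))
    (hsu : ∀ z ∈ s, G.Adj u z) (hsA : ∀ z ∈ s, ∀ a ∈ A, G.Adj z a) : s.card + 2 ≤ k := by
  have hAne : A.Nonempty := by
    rw [← Finset.card_pos]
    have h3 := h.card
    have h4 := h.h3
    omega
  obtain ⟨a, ha⟩ := hAne
  have h1 : G.IsClique ((insert u s : Finset V) : Set V) := cl_insert hcl hsu
  have h2 := h.mc.ext_card (h.AW ha) (Finset.insert_subset h.uW hsW) h1 (by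
    intro p hp
    rcases Finset.mem_insert.1 hp with rfl | hp
    · exact (h.uA a ha).symm
    · exact (hsA p hp a ha).symm)
  rw [cl_card_insert hsu] at h2
  omega

end HM42
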