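import Pool.Agent.W_2414c2_h42.PartA

/-!
# MP_2414c2_co : the main partition (Lemma 3)
-/

set_option autoImplicit false

open Finset
open scoped Classical

namespace HM42

open HM89

variable {V : Type*} {G : SimpleGraph V} {k m : ℕ} {W A : Finset V} {u r : V}

/-- far, relevant, without a maximum clique in the component -/
def Tb (G : SimpleGraph V) (k : ℕ) (W A : Finset V) (u p : V) : Prop :=
  Far G W A u p ∧ Rel G k W A u p ∧ ¬ Hk G k W A u p

theorem tb_congr {p z : V} (hp : Far G W A u p) (hz : z ∈ Yc G W A u p) :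
    Tb G k W A u z ↔ Tb G k W A u p := by
  unfold Tb
  rw [rel_congr hp hz, hk_congr hp hz]
  exact ⟨fun h => ⟨hp, h.2⟩, fun h => ⟨Yc_far hp hz, h.2⟩⟩

/-- two adjacent far vertices lie in the same component -/
theorem adj_Yc {p z : V} (hz : Far G W A u z) (hpz : G.Adj p z) : z ∈ Yc G W A u p :=
  mem_Yc.2 ⟨hz.1.1.1, Relation.ReflTransGen.single ⟨hpz, hz⟩⟩

/-- Lemma 3. -/
theorem PS.false (h : PS G k m W A u r) : False := by
  have hk2 := h.mc.two
  -- the choice of one vertex
  have hsel : ∀ Y : Finset V, ∃ o : Option V,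
      (∀ z, o = some z → z ∈ Y ∧ ∀ s ⊆ W, G.IsClique (s : Set V) →
        (∀ w ∈ s, w ∈ Y.erase z ∨ NU G A u w) → s.card < k) ∧
      ((∃ z ∈ Y, ∀ s ⊆ W, G.IsClique (s : Set V) →
        (∀ w ∈ s, w ∈ Y.erase z ∨ NU G A u w) → s.card < k) → ∃ z, o = some z) := by
    intro Y
    by_cases hY : ∃ z ∈ Y, ∀ s ⊆ W, G.IsClique (s : Set V) →
        (∀ w ∈ s, w ∈ Y.erase z ∨ NU G A u w) → s.card < k
    · obtain ⟨z, hz, hz2⟩ := hY
      refine ⟨some z, ?_, fun _ => ⟨z, rfl⟩⟩
      intro z' hz'
      have : z = z' := Option.some.inj hz'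
      rw [← this]
      exact ⟨hz, hz2⟩
    · exact ⟨none, fun z hz => absurd hz (by simp), fun h1 => absurd h1 hY⟩
  choose sel hsel1 hsel2 using hsel
  let Sb : Finset V := W.filter (fun p => Tb G k W A u p)
  let Sc : Finset V := W.filter (fun z => Far G W A u z ∧ Hk G k W A u z ∧
    sel (Yc G W A u z) = some z)
  let B : Finset V := W.filter (fun c => G.Adj u c ∧ (∀ a ∈ A, G.Adj c a) ∧
    ∃ p ∈ W, Tb G k W A u p ∧ G.Adj c p)
  let N : Finset V := W.filter (fun z => G.Adj u z)
  have hSb : ∀ p, p ∈ Sb ↔ p ∈ W ∧ Tb G k W A u p := fun p => Finset.mem_filter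
  have hSc : ∀ z, z ∈ Sc ↔ z ∈ W ∧ Far G W A u z ∧ Hk G k W A u z ∧
    sel (Yc G W A u z) = some z := fun z => Finset.mem_filter
  have hB : ∀ c, c ∈ B ↔ c ∈ W ∧ G.Adj u c ∧ (∀ a ∈ A, G.Adj c a) ∧
    ∃ p ∈ W, Tb G k W A u p ∧ G.Adj c p := fun c => Finset.mem_filter
  have hN : ∀ z, z ∈ N ↔ z ∈ W ∧ G.Adj u z := fun z => Finset.mem_filter
  let V1 : Finset V := ((N \ B) ∪ Sb) ∪ Sc
  have hV1 : ∀ z, z ∈ V1 ↔ (((z ∈ W ∧ G.Adj u z) ∧ z ∉ B) ∨ z ∈ Sb) ∨ z ∈ Sc := by
    intro z
    simp only [V1, Finset.mem_union, Finset.mem_sdiff, hN]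
  have hV1W : V1 ⊆ W := by
    intro z hz
    rcases (hV1 z).1 hz with (h1 | h1) | h1
    · exact h1.1.1
    · exact ((hSb z).1 h1).1
    · exact ((hSc z).1 h1).1
  have hAne : A.Nonempty := by
    rw [← Finset.card_pos]
    have h3 := h.card
    have h4 := h.h3
    omega
  -- neighbours of far relevant vertices in `N(u)` are complete to `A`
  have hcomp : ∀ p, Far G W A u p → Rel G k W A u p → ∀ z ∈ W, G.Adj u z → G.Adj z p →
      ∀ a ∈ A, G.Adj z a := by
    intro p hp hrel z hz huz hzp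
    by_contra hcon
    push Not at hcon
    by_cases hex : ∃ a ∈ A, G.Adj z a
    · exact h.f hz huz.symm hex hcon hp hrel hzp
    · push Not at hex
      have hzA : z ∉ A := fun hzA => hp.1.1.2.2 z hzA hzp.symm
      exact hp.2 z ⟨hz, hzA, hex⟩ huz hzp
  apply h.mc.nodiv
  refine ⟨V1, hV1W, ?_, ?_⟩
  · -- the first class
    intro s hs hcl
    have hsW : s ⊆ W := hs.trans hV1W
    by_contra hlt
    have hsk : s.card = k := le_antisymm (h.mc.le s hsW hcl) (not_lt.1 hlt)
    obtain ⟨p, hp, hup⟩ : ∃ p ∈ s, ¬ G.Adj u p := by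
      by_contra hcon
      push Not at hcon
      have h1 := h.mc.ext_card h.uW hsW hcl hcon
      omega
    have hpc : p ∈ Sb ∨ p ∈ Sc := by
      rcases (hV1 p).1 (hs hp) with (h1 | h1) | h1
      · exact absurd h1.1.2 hup
      · exact Or.inl h1
      · exact Or.inr h1
    rcases hpc with hpb | hpc
    · -- `p` in a relevant component without a maximum clique
      obtain ⟨-, hpT⟩ := (hSb p).1 hpb
      obtain ⟨hpf, hprel, hpk⟩ := hpT
      apply hpk
      refine ⟨s, ?_, hcl, hsk⟩
      intro z hz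
      by_cases hzp : z = p
      · rw [hzp]
        exact self_Yc hpf
      · have hpz : G.Adj p z := hcl hp hz (Ne.symm hzp)
        rcases (hV1 z).1 (hs hz) with (h1 | h1) | h1
        · exfalso
          apply h1.2
          rw [hB]
          exact ⟨h1.1.1, h1.1.2, hcomp p hpf hprel z h1.1.1 h1.1.2 hpz.symm, p, hpf.1.1.1,
            ⟨hpf, hprel, hpk⟩, hpz.symm⟩
        · exact adj_Yc ((hSb z).1 h1).2.1 hpz
        · exact adj_Yc ((hSc z).1 h1).2.1 hpz
    · -- `p` the chosen vertex of a maximum clique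
      obtain ⟨-, hpf, hpk, hpsel⟩ := (hSc p).1 hpc
      have hprel : Rel G k W A u p := Hk.rel (by omega) hpk
      have hrest : ∀ z ∈ s.erase p, G.Adj u z ∧ ∀ a ∈ A, G.Adj z a := by
        intro z hz
        obtain ⟨hzp, hzs⟩ := Finset.mem_erase.1 hz
        have hpz : G.Adj p z := hcl hp hzs (Ne.symm hzp)
        rcases (hV1 z).1 (hs hzs) with (h1 | h1) | h1
        · exact ⟨h1.1.2, hcomp p hpf hprel z h1.1.1 h1.1.2 hpz.symm⟩
        · exfalso
          have h2 := ((hSb z).1 h1).2
          have h3 : z ∈ Yc G W A u p := adj_Yc h2.1 hpz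
          exact h2.2.2 ((hk_congr hpf h3).2 hpk)
        · exfalso
          have h2 := ((hSc z).1 h1).2
          have h3 : z ∈ Yc G W A u p := adj_Yc h2.1 hpz
          have h4 := h2.2.2
          rw [Yc_eq hpf h3, hpsel] at h4
          exact hzp (Option.some.inj h4).symm
      have h5 := h.h ((Finset.erase_subset _ _).trans hsW) (hcl.subset (by simp))
        (fun z hz => (hrest z hz).1) (fun z hz => (hrest z hz).2)
      rw [Finset.card_erase_of_mem hp, hsk] at h5
      omega
  · -- the second class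
    intro s hs hcl
    have hsW : s ⊆ W := hs.trans Finset.sdiff_subset
    by_contra hlt
    have hsk : s.card = k := le_antisymm (h.mc.le s hsW hcl) (not_lt.1 hlt)
    have hsV : ∀ z ∈ s, (G.Adj u z → z ∈ B) ∧ z ∉ Sb ∧ z ∉ Sc := by
      intro z hz
      have h1 := (Finset.mem_sdiff.1 (hs hz)).2
      rw [hV1] at h1
      push Not at h1
      refine ⟨fun huz => ?_, h1.1.2, h1.2⟩
      exact h1.1.1 ⟨hsW hz, huz⟩
    by_cases hex : ∃ p ∈ s, An G W A u p
    · obtain ⟨p, hp, hpA⟩ := hex
      have hpV := hsV p hp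
      have hpTb : ¬ Tb G k W A u p := fun h1 => hpV.2.1 ((hSb p).2 ⟨hsW hp, h1⟩)
      -- no vertex of `s` is adjacent to `u`
      have hsu : ∀ z ∈ s, ¬ G.Adj u z := by
        intro z hz huz
        obtain ⟨hzW, -, hzA, q, hqW, hqT, hzq⟩ := (hB z).1 ((hsV z hz).1 huz)
        have hzp : z ≠ p := by
          rintro rfl
          exact hpA.2 huz
        have h1 : p ∈ Yc G W A u q := h.d hzW hzA hqT.1 hzq hpA.1 (hcl hz hp hzp)
        exact hpTb ((tb_congr hqT.1 h1).2 hqT)
      have hsA : ∀ z ∈ s, z ∉ A := fun z hz hzA => hsu z hz (h.uA z hzA)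
      have hsty : ∀ z ∈ s, An G W A u z ∨ NU G A u z := by
        intro z hz
        by_cases h1 : ∃ a ∈ A, G.Adj z a
        · exact Or.inr ⟨hsu z hz, h1⟩
        · push Not at h1
          exact Or.inl ⟨⟨hsW hz, hsA z hz, h1⟩, hsu z hz⟩
      by_cases hpf : Far G W A u p
      · -- far
        have hsY : ∀ z ∈ s, z ∈ Yc G W A u p ∨ NU G A u z := by
          intro z hz
          rcases hsty z hz with h1 | h1
          · left
            by_cases hzp : z = p
            · rw [hzp]
              exact self_Yc hpf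
            · have hpz : G.Adj p z := hcl hp hz (Ne.symm hzp)
              exact adj_Yc (h.far_step hpf h1 hpz) hpz
          · exact Or.inr h1
        have hprel : Rel G k W A u p := ⟨s, hsW, hcl, hsk, ⟨p, hp, self_Yc hpf⟩, hsY⟩
        have hpk : Hk G k W A u p := by
          by_contra hn
          exact hpTb ⟨hpf, hprel, hn⟩
        obtain ⟨z0, hz0⟩ := hsel2 _ (h.g hpf hpk)
        obtain ⟨hz0Y, hz0s⟩ := hsel1 _ z0 hz0
        have hz0c : z0 ∈ Sc := by
          rw [hSc]
          have h1 : Far G W A u z0 := Yc_far hpf hz0Y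
          refine ⟨h1.1.1.1, h1, (hk_congr hpf hz0Y).2 hpk, ?_⟩
          rw [Yc_eq hpf hz0Y]
          exact hz0
        have h2 := hz0s s hsW hcl (by
          intro w hw
          rcases hsY w hw with h1 | h1
          · left
            rw [Finset.mem_erase]
            refine ⟨?_, h1⟩
            rintro rfl
            exact (hsV w hw).2.2 hz0c
          · exact Or.inr h1)
        omega
      · -- near
        obtain ⟨f, hfO, huf, hfp⟩ : ∃ f, Out G W A f ∧ G.Adj u f ∧ G.Adj f p := by
          by_contra hcon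
          push Not at hcon
          exact hpf ⟨hpA, hcon⟩
        obtain ⟨z, hz, hfz⟩ := h.mc.nfull hfO.1 hsW hcl hsk
        have hzp : z ≠ p := by
          rintro rfl
          exact hfz hfp
        have hzp2 : G.Adj z p := hcl hz hp hzp
        rcases hsty z hz with h1 | h1
        · exact hfz (h.b hfO huf hpA h1 hfp hzp2.symm)
        · exact hfz (h.c h1 hpA hfO huf hzp2 hfp).symm
    · -- no vertex of `An`
      push Not at hex
      have hsty : ∀ z ∈ s, NU G A u z ∨ ∀ a ∈ A, G.Adj z a := by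
        intro z hz
        by_cases huz : G.Adj u z
        · exact Or.inr ((hB z).1 ((hsV z hz).1 huz)).2.2.1
        · left
          refine ⟨huz, ?_⟩
          by_contra hcon
          push Not at hcon
          have hzA : z ∉ A := fun hzA => huz (h.uA z hzA)
          exact hex z hz ⟨⟨hsW hz, hzA, hcon⟩, huz⟩
      exact MC.noNU h.mc h.h5 h.AW hAne h.st h.uA hsW hcl hsk hsty

end HM42
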