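import Pool.Agent.W_2414c2_h89.Fork

/-!
# MP_2414c2_co : minimal counterexamples without induced `S(1,1,3)`, basic facts

`NoS G`: the graph has no induced claw with centre `c`, leaves `x`, `y` and with the third edge
replaced by a path `c - p - q - s`.
-/

set_option autoImplicit false

open Finset
open scoped Classical

namespace HM42

open HM89

variable {V : Type*} {G : SimpleGraph V} {k m : ℕ} {W : Finset V}

/-- no induced `S(1,1,3)` -/
def NoS (G : SimpleGraph V) : Prop := ∀ c x y p q s : V, G.Adj c x → G.Adj c y → G.Adj c p →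
  G.Adj p q → G.Adj q s → x ≠ y → ¬ G.Adj x y → ¬ G.Adj x p → ¬ G.Adj x q → ¬ G.Adj x s →
  ¬ G.Adj y p → ¬ G.Adj y q → ¬ G.Adj y s → ¬ G.Adj c q → ¬ G.Adj c s → ¬ G.Adj p s → False

theorem ns {a b : V} (h : ¬ G.Adj a b) : ¬ G.Adj b a := fun h' => h h'.symm

/-- `I` is a stable set of size `m` in the neighbourhood of `v` -/
structure TC (G : SimpleGraph V) (W : Finset V) (m : ℕ) (v : V) (I : Finset V) : Prop where
  vW : v ∈ W
  IW : I ⊆ W
  adj : ∀ x ∈ I, G.Adj v x
  st : Stb G I
  card : I.card = m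

/-- `z` is outside of `I` and anticomplete to `I` -/
def Out (G : SimpleGraph V) (W : Finset V) (I : Finset V) (z : V) : Prop :=
  z ∈ W ∧ z ∉ I ∧ ∀ x ∈ I, ¬ G.Adj z x

/-- `c` has exactly one non-neighbour `χ` in `I` -/
def One (G : SimpleGraph V) (I : Finset V) (c χ : V) : Prop :=
  χ ∈ I ∧ ¬ G.Adj c χ ∧ ∀ i ∈ I, i ≠ χ → G.Adj c i

/-- every clique is missed by every vertex outside -/
theorem nfull' (h : MC G k W) {x : V} (hx : x ∈ W) {K : Finset V} (hKW : K ⊆ W)
    (hK : G.IsClique (K : Set V)) (hk : K.card = k) : ∃ a ∈ K, ¬ G.Adj x a :=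
  h.nfull hx hKW hK hk

theorem TC.out (hm : Mx G W m) {v : V} {I : Finset V} (hc : TC G W m v I) {z : V}
    (hz : Out G W I z) : ¬ G.Adj v z := fun hvz =>
  hm.no hc.vW hc.IW hc.adj hc.st hc.card hz.1 hz.2.1 hz.2.2 hvz

/-- no vertex adjacent to an outer vertex is complete to `I` -/
theorem TC.ncomp (hm : Mx G W m) {v : V} {I : Finset V} (hc : TC G W m v I) {z c : V}
    (hz : Out G W I z) (hcW : c ∈ W) (hcz : G.Adj c z) : ∃ i ∈ I, ¬ G.Adj c i := by
  by_contra hcon
  push Not at hcon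
  exact hm.no hcW hc.IW hcon hc.st hc.card hz.1 hz.2.1 hz.2.2 hcz

/-- two outer neighbours of a vertex which is complete to all but one -/
theorem two_adj (hm : Mx G W m) {A : Finset V} (hA : A ⊆ W) (hst : Stb G A)
    (hcard : A.card + 1 = m) {c f f' : V} (hc : c ∈ W) (hcA : ∀ a ∈ A, G.Adj c a)
    (hf : Out G W A f) (hf' : Out G W A f') (hcf : G.Adj c f) (hcf' : G.Adj c f')
    (hne : f ≠ f') : G.Adj f f' := by
  by_contra hn
  refine hm.no (Q := insert f A) hc (Finset.insert_subset hf.1 hA) ?_ ?_ ?_ hf'.1 ?_ ?_ hcf'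
  · intro y hy
    rcases Finset.mem_insert.1 hy with rfl | hy
    · exact hcf
    · exact hcA y hy
  · intro x hx y hy hxy
    rcases Finset.mem_insert.1 hx with hx1 | hx1 <;>
      rcases Finset.mem_insert.1 hy with hy1 | hy1
    · rw [hx1, hy1] at hxy
      exact G.irrefl hxy
    · rw [hx1] at hxy
      exact hf.2.2 y hy1 hxy
    · rw [hy1] at hxy
      exact hf.2.2 x hx1 hxy.symm
    · exact hst x hx1 y hy1 hxy
  · rw [Finset.card_insert_of_notMem hf.2.1, hcard]
  · intro h1
    rcases Finset.mem_insert.1 h1 with h1 | h1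
    · exact hne h1.symm
    · exact hf'.2.1 h1
  · intro y hy hfy
    rcases Finset.mem_insert.1 hy with rfl | hy
    · exact hn hfy.symm
    · exact hf'.2.2 y hy hfy

theorem Out.mono {I J : Finset V} (hIJ : J ⊆ I) {z : V} (hz : Out G W I z) : Out G W J z :=
  ⟨hz.1, fun h => hz.2.1 (hIJ h), fun x hx => hz.2.2 x (hIJ hx)⟩

/-- a vertex `z` far from `v` misses at most one element of `I` -/
theorem TC.miss (hs : NoS G) (hm : Mx G W m) {v : V} {I : Finset V} (hc : TC G W m v I)
    {z l i j j' : V} (hvz : ¬ G.Adj v z) (hi : i ∈ I) (hzi : G.Adj z i) (hl : Out G W I l)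
    (hzl : G.Adj z l) (hj : j ∈ I) (hj' : j' ∈ I) (hne : j ≠ j') (hzj : ¬ G.Adj z j)
    (hzj' : ¬ G.Adj z j') : False :=
  hs v j j' i z l (hc.adj j hj) (hc.adj j' hj') (hc.adj i hi) hzi.symm hzl hne (hc.st j hj j' hj')
    (hc.st j hj i hi) (ns hzj) (ns (hl.2.2 j hj)) (hc.st j' hj' i hi) (ns hzj')
    (ns (hl.2.2 j' hj')) hvz (hc.out hm hl) (ns (hl.2.2 i hi))

/-- the same for a neighbour of `v` -/
theorem TC.miss' (hs : NoS G) (hm : Mx G W m) {v : V} {I : Finset V} (hc : TC G W m v I)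
    {z l l' j j' : V} (hvz : G.Adj v z) (hl : Out G W I l)
    (hzl : G.Adj z l) (hl' : Out G W I l') (hll : G.Adj l l') (hzl' : ¬ G.Adj z l')
    (hj : j ∈ I) (hj' : j' ∈ I) (hne : j ≠ j') (hzj : ¬ G.Adj z j)
    (hzj' : ¬ G.Adj z j') : False :=
  hs v j j' z l l' (hc.adj j hj) (hc.adj j' hj') hvz hzl hll hne (hc.st j hj j' hj')
    (ns hzj) (ns (hl.2.2 j hj)) (ns (hl'.2.2 j hj)) (ns hzj') (ns (hl.2.2 j' hj'))
    (ns (hl'.2.2 j' hj')) (hc.out hm hl) (hc.out hm hl') hzl'

/-- exactly one non-neighbour -/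
theorem TC.one (hs : NoS G) (hm : Mx G W m) {v : V} {I : Finset V} (hc : TC G W m v I)
    {c l l' : V} (hcW : c ∈ W) (hl : Out G W I l) (hcl : G.Adj c l) (hl' : Out G W I l')
    (hll : G.Adj l l') (hcl' : ¬ G.Adj c l') (hci : ∃ i ∈ I, G.Adj c i) :
    ∃ χ, One G I c χ := by
  obtain ⟨χ, hχ, hcχ⟩ := hc.ncomp hm hl hcW hcl
  refine ⟨χ, hχ, hcχ, fun i hi hne => ?_⟩
  by_contra hcon
  by_cases hvc : G.Adj v c
  · exact hc.miss' hs hm hvc hl hcl hl' hll hcl' hi hχ hne hcon hcχ
  · obtain ⟨i', hi', hci'⟩ := hci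
    exact hc.miss hs hm hvc hi' hci' hl hcl hi hχ hne hcon hcχ

/-- removing one element from a set with at least three elements, two distinct elements remain -/
theorem exists_two {I : Finset V} (h3 : 3 ≤ I.card) (χ : V) :
    ∃ a ∈ I, ∃ b ∈ I, a ≠ b ∧ a ≠ χ ∧ b ≠ χ := by
  obtain ⟨a, ha, hac, -⟩ := exists_third h3 χ χ
  obtain ⟨b, hb, hbc, hba⟩ := exists_third h3 χ a
  exact ⟨a, ha, b, hb, hba.symm, hac, hbc⟩

/-- no adjacent domination in a minimal counterexample -/
theorem MC.dom (h : MC G k W) {p l : V} (hp : p ∈ W) (hl : l ∈ W) (hpl : G.Adj p l)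
    (hd : ∀ z ∈ W, G.Adj p z → z = l ∨ G.Adj l z) : False := by
  have hss : W.erase p ⊂ W := Finset.erase_ssubset hp
  obtain ⟨X, hX, h1, h2⟩ := h.min (W.erase p) hss k h.two fun s hs hc =>
    h.le s (hs.trans (Finset.erase_subset _ _)) hc
  have hlp : l ≠ p := by
    rintro rfl
    exact G.irrefl hpl
  have key : ∀ Y : Finset V, Y ⊆ W.erase p → l ∉ Y → Fr G k Y → Fr G k (insert p Y) := by
    intro Y hY hlY hF s hsY hcl
    by_cases hps : p ∈ s
    · have hls : l ∉ s := by
        intro h3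
        rcases Finset.mem_insert.1 (hsY h3) with h4 | h4
        · exact hlp h4
        · exact hlY h4
      have hsW : s ⊆ W := fun x hx => by
        rcases Finset.mem_insert.1 (hsY hx) with h4 | h4
        · rw [h4]
          exact hp
        · exact Finset.mem_of_mem_erase (hY h4)
      have h3 := h.ext_card hl hsW hcl (by
        intro z hz
        by_cases hzp : z = p
        · rw [hzp]
          exact hpl.symm
        · have h4 : G.Adj p z := hcl hps hz (Ne.symm hzp)
          rcases hd z (hsW hz) h4 with h5 | h5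
          · rw [h5] at hz
            exact absurd hz hls
          · exact h5)
      omega
    · exact hF s (fun x hx => by
        rcases Finset.mem_insert.1 (hsY hx) with h4 | h4
        · rw [h4] at hx
          exact absurd hx hps
        · exact h4) hcl
  have hpX : p ∉ X := fun h3 => (Finset.mem_erase.1 (hX h3)).1 rfl
  apply h.nodiv
  by_cases hlX : l ∈ X
  · refine ⟨X, hX.trans (Finset.erase_subset _ _), h1, ?_⟩
    have heq : W \ X = insert p (W.erase p \ X) := by
      ext z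
      simp only [Finset.mem_sdiff, Finset.mem_insert, Finset.mem_erase]
      constructor
      · rintro ⟨h3, h4⟩
        by_cases hzp : z = p
        · exact Or.inl hzp
        · exact Or.inr ⟨⟨hzp, h3⟩, h4⟩
      · rintro (h3 | ⟨⟨h3, h4⟩, h5⟩)
        · rw [h3]
          exact ⟨hp, hpX⟩
        · exact ⟨h4, h5⟩
    rw [heq]
    exact key _ Finset.sdiff_subset (fun h3 => (Finset.mem_sdiff.1 h3).2 hlX) h2
  · refine ⟨insert p X, Finset.insert_subset hp (hX.trans (Finset.erase_subset _ _)),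
      key X hX hlX h1, ?_⟩
    have heq : W \ insert p X = W.erase p \ X := by
      ext z
      simp only [Finset.mem_sdiff, Finset.mem_insert, Finset.mem_erase]
      tauto
    rw [heq]
    exact h2

end HM42
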