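import Pool.Agent.W_2414c2_h42.Beta

/-!
# MP_2414c2_co : chains and uncrossing
-/

set_option autoImplicit false

open Finset
open scoped Classical

namespace HM42

open HM89

variable {V : Type*} {G : SimpleGraph V} {k m : ℕ} {W : Finset V}

/-- `z` is not adjacent to `u` and has a neighbour in `A` -/
def NU (G : SimpleGraph V) (A : Finset V) (u z : V) : Prop := ¬ G.Adj u z ∧ ∃ a ∈ A, G.Adj z a

/-- (a): no maximum clique among the vertices which have a neighbour in `A` and are not adjacent to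
`u` or complete to `A`. -/
theorem MC.noNU (h : MC G k W) (h5 : NoC5 G) {u : V} {A : Finset V} (hA : A ⊆ W)
    (hAne : A.Nonempty) (hst : Stb G A) (huA : ∀ a ∈ A, G.Adj u a) {s : Finset V} (hsW : s ⊆ W)
    (hcl : G.IsClique (s : Set V)) (hsk : s.card = k)
    (hNU : ∀ z ∈ s, NU G A u z ∨ ∀ a ∈ A, G.Adj z a) : False := by
  obtain ⟨a0, ha0⟩ := hAne
  by_cases hex : ∃ z ∈ s, ¬ ∀ a ∈ A, G.Adj z a
  · obtain ⟨z1, hz1, hz1n⟩ := hex
    obtain ⟨z0, hz0, hmin⟩ := Finset.exists_min_image (s.filter (fun z => ¬ ∀ a ∈ A, G.Adj z a))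
      (fun z => (A.filter (fun a => G.Adj z a)).card) ⟨z1, Finset.mem_filter.2 ⟨hz1, hz1n⟩⟩
    rw [Finset.mem_filter] at hz0
    obtain ⟨huz0, a1, ha1, hza1⟩ := (hNU z0 hz0.1).resolve_right hz0.2
    obtain ⟨z, hz, hza⟩ := h.nfull (hA ha1) hsW hcl hsk
    have hzn : ¬ ∀ a ∈ A, G.Adj z a := fun hall => hza (hall a1 ha1).symm
    obtain ⟨huz, -⟩ := (hNU z hz).resolve_right hzn
    have h2 := hmin z (Finset.mem_filter.2 ⟨hz, hzn⟩)
    obtain ⟨b, hb, hzb, hz0b⟩ : ∃ b ∈ A, G.Adj z b ∧ ¬ G.Adj z0 b := by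
      by_contra hcon
      push Not at hcon
      have h3 : A.filter (fun a => G.Adj z a) ⊂ A.filter (fun a => G.Adj z0 a) := by
        refine ⟨fun j hj => ?_, fun hsub => ?_⟩
        · rw [Finset.mem_filter] at hj ⊢
          exact ⟨hj.1, hcon j hj.1 hj.2⟩
        · have h4 := hsub (Finset.mem_filter.2 ⟨ha1, hza1⟩)
          exact hza (Finset.mem_filter.1 h4).2.symm
      have h4 := Finset.card_lt_card h3
      omega
    have hne : z0 ≠ z := by
      rintro rfl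
      exact hza hza1.symm
    exact chain5 h5 (huA a1 ha1) (huA b hb) huz0 huz (hst a1 ha1 b hb) hza1.symm
      (hcl hz0.1 hz hne) hzb hza hz0b
  · push Not at hex
    obtain ⟨z, hz, hza⟩ := h.nfull (hA ha0) hsW hcl hsk
    exact hza (hex z hz a0 ha0).symm

/-- Two non-adjacent vertices outside of `N(u)` have the same trace on `L`. -/
theorem MC.uncp (h : MC G k W) (h5 : NoC5 G) (hs : NoS G) (h3 : 3 ≤ m) (hm : Mx G W m) {u : V}
    {J : Finset V} (hc : TC G W m u J) {L : Finset V} (hLW : L ⊆ W)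
    (hL : G.IsClique (L : Set V)) (hLk : L.card = k) (hLo : ∀ l ∈ L, Out G W J l) {w w' t t0 : V}
    (hw : w ∈ W) (hw' : w' ∈ W) (huw : ¬ G.Adj u w) (huw' : ¬ G.Adj u w')
    (hwJ : ∃ i ∈ J, G.Adj w i) (hwJ' : ∃ i ∈ J, G.Adj w' i) (hn : ¬ G.Adj w w') (ht : t ∈ L)
    (hwt' : G.Adj w' t) (hwt : ¬ G.Adj w t) (ht0 : t0 ∈ L) (hwt0 : G.Adj w t0) : False := by
  have hne0 : t0 ≠ t := by
    rintro rfl
    exact hwt hwt0
  obtain ⟨χ, h1⟩ := hc.one hs hm hw (hLo t0 ht0) hwt0 (hLo t ht) (hL ht0 ht hne0) hwt hwJ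
  obtain ⟨b', hb', hwb'⟩ := h.nfull hw' hLW hL hLk
  have hneb : t ≠ b' := by
    rintro rfl
    exact hwb' hwt'
  obtain ⟨χ', h1'⟩ := hc.one hs hm hw' (hLo t ht) hwt' (hLo b' hb') (hL ht hb' hneb) hwb' hwJ'
  obtain ⟨j, hj, hjχ, hjχ'⟩ := exists_third (Q := J) (by rw [hc.card]; exact h3) χ χ'
  have hwj : G.Adj w j := h1.2.2 j hj hjχ
  have hwj' : G.Adj w' j := h1'.2.2 j hj hjχ'
  have hnest : ∀ p ∈ L, G.Adj w p → G.Adj w' p := by
    intro p hp hwp
    by_contra hn'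
    have hne : p ≠ t := by
      rintro rfl
      exact hwt hwp
    exact h5 w p t w' j hwp (hL hp ht hne) hwt'.symm hwj' hwj.symm hwt hn (ns hn')
      ((hLo p hp).2.2 j hj) ((hLo t ht).2.2 j hj)
  have hwb : ¬ G.Adj w b' := fun hh => hwb' (hnest b' hb' hh)
  have hwu : w ≠ u := by
    rintro rfl
    exact hc.out hm (hLo t0 ht0) hwt0
  exact hs j w u w' t b' hwj.symm (hc.adj j hj).symm hwj'.symm hwt' (hL ht hb' hneb) hwu (ns huw)
    hn hwt hwb huw' (hc.out hm (hLo t ht)) (hc.out hm (hLo b' hb')) (ns ((hLo t ht).2.2 j hj))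
    (ns ((hLo b' hb').2.2 j hj)) hwb'

/-- Uncrossing. -/
theorem MC.unc (h : MC G k W) (h5 : NoC5 G) (hs : NoS G) (h3 : 3 ≤ m) (hm : Mx G W m) {u : V}
    {J A : Finset V} (hc : TC G W m u J) (hAJ : A ⊆ J) (hAne : A.Nonempty) {L : Finset V}
    (hLW : L ⊆ W) (hL : G.IsClique (L : Set V)) (hLk : L.card = k)
    (hLo : ∀ l ∈ L, Out G W J l) :
    ∃ z ∈ L, ∀ s ⊆ W, G.IsClique (s : Set V) → (∀ w ∈ s, w ∈ L.erase z ∨ NU G A u w) →
      s.card < k := by
  let P : Finset (Finset V) := W.powerset.filter (fun s => G.IsClique (s : Set V) ∧ s.card = k ∧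
    ∀ w ∈ s, w ∈ L ∨ NU G A u w)
  have hP : ∀ s, s ∈ P ↔ s ⊆ W ∧ G.IsClique (s : Set V) ∧ s.card = k ∧
      ∀ w ∈ s, w ∈ L ∨ NU G A u w := by
    intro s
    rw [Finset.mem_filter, Finset.mem_powerset]
  obtain ⟨s, hsP, hmin⟩ := Finset.exists_min_image P (fun s => (s ∩ L).card)
    ⟨L, (hP L).2 ⟨hLW, hL, hLk, fun w hw => Or.inl hw⟩⟩
  obtain ⟨hsW, hcl, hsk, hsU⟩ := (hP s).1 hsP
  obtain ⟨z, hz⟩ : (s ∩ L).Nonempty := by
    rw [Finset.nonempty_iff_ne_empty]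
    intro hemp
    refine MC.noNU h h5 (hAJ.trans hc.IW) hAne (fun x hx y hy => hc.st x (hAJ hx) y (hAJ hy))
      (fun a ha => hc.adj a (hAJ ha)) hsW hcl hsk ?_
    intro w hw
    rcases hsU w hw with h1 | h1
    · have : w ∈ s ∩ L := Finset.mem_inter.2 ⟨hw, h1⟩
      rw [hemp] at this
      exact absurd this (Finset.notMem_empty w)
    · exact Or.inl h1
  rw [Finset.mem_inter] at hz
  refine ⟨z, hz.2, ?_⟩
  intro s' hsW' hcl' hsU'
  by_contra hlt
  have hsk' : s'.card = k := le_antisymm (h.le s' hsW' hcl') (not_lt.1 hlt)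
  have hsU2 : ∀ w ∈ s', w ∉ L → NU G A u w := by
    intro w hw hwL
    rcases hsU' w hw with h1 | h1
    · exact absurd (Finset.mem_of_mem_erase h1) hwL
    · exact h1
  have hsU1 : ∀ w ∈ s, w ∉ L → NU G A u w := fun w hw hwL => (hsU w hw).resolve_left hwL
  have hzs' : z ∉ s' := by
    intro hzs
    rcases hsU' z hzs with h1 | h1
    · exact (Finset.ne_of_mem_erase h1) rfl
    · obtain ⟨a, ha, hza⟩ := h1.2
      exact (hLo z hz.2).2.2 a (hAJ ha) hza
  set Q1 : Finset V := (s \ L).filter (fun w => ∃ t ∈ s' ∩ L, ¬ G.Adj w t) with hQ1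
  have hQ1m : ∀ w, w ∈ Q1 ↔ (w ∈ s ∧ w ∉ L) ∧ ∃ t ∈ s' ∩ L, ¬ G.Adj w t := by
    intro w
    rw [hQ1, Finset.mem_filter, Finset.mem_sdiff]
  have hdis1 : ∀ w ∈ Q1, w ∉ s' := by
    intro w hw hws
    obtain ⟨⟨-, hwL⟩, t, ht, hwt⟩ := (hQ1m w).1 hw
    rw [Finset.mem_inter] at ht
    have hne : w ≠ t := by
      rintro rfl
      exact hwL ht.2
    exact hwt (hcl' hws ht.1 hne)
  have hcross : ∀ w ∈ Q1, ∀ w' ∈ s', w' ∉ L → G.Adj w w' := by
    intro w hw w' hw' hwL'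
    by_contra hn
    obtain ⟨⟨hws, hwL⟩, t, ht, hwt⟩ := (hQ1m w).1 hw
    rw [Finset.mem_inter] at ht
    have hne : w' ≠ t := by
      rintro rfl
      exact hwL' ht.2
    have hne2 : w ≠ z := by
      rintro rfl
      exact hwL hz.2
    obtain ⟨hu1, a1, ha1, hwa1⟩ := hsU1 w hws hwL
    obtain ⟨hu2, a2, ha2, hwa2⟩ := hsU2 w' hw' hwL'
    exact MC.uncp h h5 hs h3 hm hc hLW hL hLk hLo (hsW hws) (hsW' hw') hu1 hu2
      ⟨a1, hAJ ha1, hwa1⟩ ⟨a2, hAJ ha2, hwa2⟩ hn ht.2 (hcl' hw' ht.1 hne) hwt hz.2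
      (hcl hws hz.1 hne2)
  -- the first clique
  set s2 : Finset V := (Q1 ∪ (s' \ L)) ∪ ((s ∩ L) ∩ (s' ∩ L)) with hs2
  have hs2m : ∀ w, w ∈ s2 ↔ (w ∈ Q1 ∨ (w ∈ s' ∧ w ∉ L)) ∨ ((w ∈ s ∧ w ∈ L) ∧ w ∈ s' ∧ w ∈ L) := by
    intro w
    simp only [hs2, Finset.mem_union, Finset.mem_sdiff, Finset.mem_inter]
  have hs2cl : G.IsClique (s2 : Set V) := by
    have key : ∀ x ∈ s2, ∀ y ∈ s2, x ≠ y → (x ∈ Q1 → G.Adj x y) := by
      intro x _ y hy hxy hx
      have hxs := ((hQ1m x).1 hx).1.1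
      rcases (hs2m y).1 hy with (h1 | h1) | h1
      · exact hcl hxs ((hQ1m y).1 h1).1.1 hxy
      · exact hcross x hx y h1.1 h1.2
      · exact hcl hxs h1.1.1 hxy
    intro x hx y hy hxy
    rcases (hs2m x).1 hx with (h1 | h1) | h1
    · exact key x hx y hy hxy h1
    · rcases (hs2m y).1 hy with (h2 | h2) | h2
      · exact (key y hy x hx (Ne.symm hxy) h2).symm
      · exact hcl' h1.1 h2.1 hxy
      · exact hcl' h1.1 h2.2.1 hxy
    · rcases (hs2m y).1 hy with (h2 | h2) | h2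
      · exact (key y hy x hx (Ne.symm hxy) h2).symm
      · exact hcl' h1.2.1 h2.1 hxy
      · exact hcl' h1.2.1 h2.2.1 hxy
  have hs2W : s2 ⊆ W := by
    intro w hw
    rcases (hs2m w).1 hw with (h1 | h1) | h1
    · exact hsW ((hQ1m w).1 h1).1.1
    · exact hsW' h1.1
    · exact hsW h1.1.1
  -- the second clique
  set s3 : Finset V := ((s \ L) \ Q1) ∪ ((s ∩ L) ∪ (s' ∩ L)) with hs3
  have hs3m : ∀ w, w ∈ s3 ↔ ((w ∈ s ∧ w ∉ L) ∧ w ∉ Q1) ∨ ((w ∈ s ∧ w ∈ L) ∨ (w ∈ s' ∧ w ∈ L)) := by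
    intro w
    simp only [hs3, Finset.mem_union, Finset.mem_sdiff, Finset.mem_inter]
  have hs3cl : G.IsClique (s3 : Set V) := by
    have key : ∀ x, (x ∈ s ∧ x ∉ L) ∧ x ∉ Q1 → ∀ y ∈ s3, x ≠ y → G.Adj x y := by
      rintro x ⟨⟨hxs, hxL⟩, hxQ⟩ y hy hxy
      rcases (hs3m y).1 hy with h1 | h1 | h1
      · exact hcl hxs h1.1.1 hxy
      · exact hcl hxs h1.1 hxy
      · by_contra hn
        exact hxQ ((hQ1m x).2 ⟨⟨hxs, hxL⟩, y, Finset.mem_inter.2 h1, hn⟩)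
    intro x hx y hy hxy
    rcases (hs3m x).1 hx with h1 | h1
    · exact key x h1 y hy hxy
    · rcases (hs3m y).1 hy with h2 | h2
      · exact (key y h2 x hx (Ne.symm hxy)).symm
      · have hx2 : x ∈ L := by
          rcases h1 with h1 | h1
          · exact h1.2
          · exact h1.2
        have hy2 : y ∈ L := by
          rcases h2 with h2 | h2
          · exact h2.2
          · exact h2.2
        exact hL hx2 hy2 hxy
  have hs3W : s3 ⊆ W := by
    intro w hw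
    rcases (hs3m w).1 hw with h1 | h1 | h1
    · exact hsW h1.1.1
    · exact hsW h1.1
    · exact hsW' h1.1
  have hs3k := h.le s3 hs3W hs3cl
  -- cardinalities
  have hc2 : s2.card = Q1.card + (s' \ L).card + ((s ∩ L) ∩ (s' ∩ L)).card := by
    rw [hs2, Finset.card_union_of_disjoint, Finset.card_union_of_disjoint]
    · rw [Finset.disjoint_left]
      intro w hw hw2
      exact hdis1 w hw (Finset.mem_sdiff.1 hw2).1
    · rw [Finset.disjoint_left]
      intro w hw hw2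
      have hwL := (Finset.mem_inter.1 (Finset.mem_inter.1 hw2).1).2
      rcases Finset.mem_union.1 hw with h1 | h1
      · exact ((hQ1m w).1 h1).1.2 hwL
      · exact (Finset.mem_sdiff.1 h1).2 hwL
  have hQ1s : Q1 ⊆ s \ L := Finset.filter_subset _ _
  have hc3 : s3.card = ((s \ L).card - Q1.card) + ((s ∩ L) ∪ (s' ∩ L)).card := by
    rw [hs3, Finset.card_union_of_disjoint, Finset.card_sdiff_of_subset hQ1s]
    rw [Finset.disjoint_left]
    intro w hw hw2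
    have hwL : w ∈ L := by
      rcases Finset.mem_union.1 hw2 with h1 | h1
      · exact (Finset.mem_inter.1 h1).2
      · exact (Finset.mem_inter.1 h1).2
    exact (Finset.mem_sdiff.1 (Finset.mem_sdiff.1 hw).1).2 hwL
  have hQ1c := Finset.card_le_card hQ1s
  have hui := Finset.card_union_add_card_inter (s ∩ L) (s' ∩ L)
  have hsc := Finset.card_sdiff_add_card_inter s L
  have hsc' := Finset.card_sdiff_add_card_inter s' L
  have hs2k : s2.card = k := by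
    have h1 := h.le s2 hs2W hs2cl
    omega
  have hs2P : s2 ∈ P := by
    refine (hP s2).2 ⟨hs2W, hs2cl, hs2k, fun w hw => ?_⟩
    rcases (hs2m w).1 hw with (h1 | h1) | h1
    · exact Or.inr (hsU1 w ((hQ1m w).1 h1).1.1 ((hQ1m w).1 h1).1.2)
    · exact Or.inr (hsU2 w h1.1 h1.2)
    · exact Or.inl h1.1.2
  have h4 := hmin s2 hs2P
  have h5' : s2 ∩ L ⊂ s ∩ L := by
    refine ⟨fun w hw => ?_, fun hsub => ?_⟩
    · rw [Finset.mem_inter] at hw
      rcases (hs2m w).1 hw.1 with (h1 | h1) | h1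
      · exact absurd hw.2 ((hQ1m w).1 h1).1.2
      · exact absurd hw.2 h1.2
      · exact Finset.mem_inter.2 h1.1
    · have h6 := hsub (Finset.mem_inter.2 hz)
      rcases (hs2m z).1 (Finset.mem_inter.1 h6).1 with (h1 | h1) | h1
      · exact ((hQ1m z).1 h1).1.2 hz.2
      · exact h1.2 hz.2
      · exact hzs' h1.2.1
  have h6 := Finset.card_lt_card h5'
  omega

end HM42
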